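import Mathlib
import Pool.Agent.Lib_helper21.TS.Defs

/-!
# Machines with random access to the input graph and to a work memory whose registers have prices
-/

namespace Pool.Agent.ACC

open Pool.Agent.TS

/-- A nondeterministic, nonuniform machine with random access to a graph on `Fin n`, with control
states in `Q` and with one register, with content in `Γ`, for every member of `A`. If at time `i`
the machine is in the state `q`, it reads the register `rd i q` (or none); `γ` being the content
read, it asks the question `ask i q γ` about the graph; `a` being the answer, it chooses a member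
`(q', w)` of `next i q γ a`, goes to the state `q'` and, if `w = some (x, v)`, writes `v` into the
register `x`. -/
structure Machine (n : ℕ) (Q A Γ : Type) where
  start : Set Q
  init : A → Γ
  rd : ℕ → Q → Option A
  ask : ℕ → Q → Option Γ → Query n
  next : ℕ → Q → Option Γ → Option (Fin n) → Set (Q × Option (A × Γ))
  acc : Set Q

open Classical in
/-- The contents of the registers after a write. -/
noncomputable def write {A Γ : Type} (c : A → Γ) : Option (A × Γ) → A → Γ
  | none => c
  | some (x, v) => fun y => if y = x then v else c y

/-- `q i`, `c i` are the state and the contents of the registers at time `i`, and `w i` is the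
write of step `i`, in a computation of `t` steps on the graph `G`. -/
def Machine.IsComputation {n : ℕ} {Q A Γ : Type} (M : Machine n Q A Γ) (G : SimpleGraph (Fin n))
    (t : ℕ) (q : ℕ → Q) (c : ℕ → A → Γ) (w : ℕ → Option (A × Γ)) : Prop :=
  q 0 ∈ M.start ∧ c 0 = M.init ∧ ∀ i < t,
    (q (i + 1), w i) ∈ M.next i (q i) ((M.rd i (q i)).map (c i))
      (answer G (M.ask i (q i) ((M.rd i (q i)).map (c i)))) ∧
    c (i + 1) = write (c i) (w i)

/-- The cost of the first `t` steps if an access to the register `a` costs `f a`: the number of
the steps, plus the smaller one of two sums: the sum of `f a` over the registers `a` read, and the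
sum of `f a` over the registers `a` written (a register is counted each time it is read or
written). -/
noncomputable def Machine.cost {n : ℕ} {Q A Γ : Type} (M : Machine n Q A Γ) (f : A → ℝ)
    (t : ℕ) (q : ℕ → Q) (w : ℕ → Option (A × Γ)) : ℝ :=
  t + min (∑ i ∈ Finset.range t, (M.rd i (q i)).elim 0 f)
    (∑ i ∈ Finset.range t, (w i).elim 0 fun x => f x.1)

/-- The machine recognises the triangle-free graphs among the graphs with the degrees `δ`, at a
cost of at most `T`: every triangle-free graph with the degrees `δ` has a computation that ends in
an accepting state and costs at most `T`, and a graph with the degrees `δ` and with a triangle has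
no computation that ends in an accepting state. -/
def Machine.Recognises {n : ℕ} {Q A Γ : Type} (M : Machine n Q A Γ) (f : A → ℝ) (T : ℝ)
    (δ : Fin n → ℕ) : Prop :=
  ∀ G : SimpleGraph (Fin n), (∀ v, (adjList G v).length = δ v) →
    (G.CliqueFree 3 → ∃ t q c w, M.IsComputation G t q c w ∧ q t ∈ M.acc ∧ M.cost f t q w ≤ T) ∧
    (¬ G.CliqueFree 3 → ¬ ∃ t q c w, M.IsComputation G t q c w ∧ q t ∈ M.acc)

end Pool.Agent.ACC
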