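import Mathlib
import Pool.Agent.Lib_helper21.TS.Core
import Pool.Agent.ACC.Defs

/-!
# Mixing two runs of a machine with a far memory
-/

namespace Pool.Agent.ACC

open Finset Equiv Pool.Agent.TS

open Classical in
/-- The number of the steps before time `t` that read a register. -/
noncomputable def Machine.reads {n : ℕ} {Q A Γ : Type} (M : Machine n Q A Γ) (t : ℕ)
    (q : ℕ → Q) : ℕ :=
  ((Finset.range t).filter fun i => M.rd i (q i) ≠ none).card

open Classical in
/-- The number of the steps before time `t` that write into a register. -/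
noncomputable def writes {A Γ : Type} (t : ℕ) (w : ℕ → Option (A × Γ)) : ℕ :=
  ((Finset.range t).filter fun i => w i ≠ none).card

/-- Some computation of at most `T` steps on `G` ends in an accepting state and reads registers
at most `F` times or writes into registers at most `F` times. -/
def Machine.Accepts {n : ℕ} {Q A Γ : Type} (M : Machine n Q A Γ) (T F : ℕ)
    (G : SimpleGraph (Fin n)) : Prop :=
  ∃ (t : ℕ) (q : ℕ → Q) (c : ℕ → A → Γ) (w : ℕ → Option (A × Γ)), t ≤ T ∧
    M.IsComputation G t q c w ∧ q t ∈ M.acc ∧ (M.reads t q ≤ F ∨ writes t w ≤ F)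

/-- Abstract machines. -/
structure FM (J B U Q A Γ : Type) where
  start : Q → Prop
  init : A → Γ
  rd : ℕ → Q → Option A
  ask : ℕ → Q → Option Γ → Option (PQ J B U)
  step : ℕ → Q → Option Γ → Option U → Q → Option (A × Γ) → Prop
  acc : Q → Prop

variable {J B U Q A Γ : Type}

/-- The contents of the far registers at time `i` if the writes are `w`. -/
noncomputable def memo (c0 : A → Γ) (w : ℕ → Option (A × Γ)) : ℕ → A → Γ
  | 0 => c0
  | i + 1 => write (memo c0 w i) (w i)

/-- The content read at time `τ`. -/
noncomputable def FM.val (M : FM J B U Q A Γ) (q : ℕ → Q) (w : ℕ → Option (A × Γ)) (τ : ℕ) :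
    Option Γ :=
  (M.rd τ (q τ)).map (memo M.init w τ)

/-- `q`, `w` are the states and the writes of an accepting run of exactly `t` steps on `z`. -/
def FM.Run (M : FM J B U Q A Γ) (t : ℕ) (z : Inp J B U) (q : ℕ → Q) (w : ℕ → Option (A × Γ)) :
    Prop :=
  M.start (q 0) ∧ (∀ τ < t, M.step τ (q τ) (M.val q w τ)
    ((M.ask τ (q τ) (M.val q w τ)).map (ans z)) (q (τ + 1)) (w τ)) ∧ M.acc (q t)

section Write

lemma write_none (c : A → Γ) : write c none = c := rfl

lemma write_same (c : A → Γ) (a : A) (v : Γ) : write c (some (a, v)) a = v := by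
  simp [write]

lemma write_of_ne (c : A → Γ) (x a : A) (v : Γ) (h : a ≠ x) : write c (some (x, v)) a = c a := by
  simp [write, h]

lemma write_not (c : A → Γ) (o : Option (A × Γ)) (a : A) (h : ∀ v, o ≠ some (a, v)) :
    write c o a = c a := by
  rcases o with _ | ⟨x, v⟩
  · rfl
  · apply write_of_ne
    rintro rfl
    exact h v rfl

open Classical in
/-- The time of the last write into the register `a` before time `τ`. -/
noncomputable def lastw (w : ℕ → Option (A × Γ)) (a : A) : ℕ → Option ℕ
  | 0 => none
  | i + 1 => if ∃ v, w i = some (a, v) then some i else lastw w a i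

lemma lastw_lt (w : ℕ → Option (A × Γ)) (a : A) (τ : ℕ) : ∀ i, lastw w a τ = some i → i < τ := by
  induction τ with
  | zero => intro i h; simp [lastw] at h
  | succ τ ih =>
    intro i h
    rw [lastw] at h
    split_ifs at h with hc
    · have := Option.some.inj h
      omega
    · have := ih i h
      omega

/-- If two sequences of writes have the same last write into `a`, with the same content, then every
mixture of the two has the same content in `a`. -/
lemma memo_mix (c0 : A → Γ) (w w' v : ℕ → Option (A × Γ)) (a : A) (τ : ℕ)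
    (hv : ∀ σ < τ, v σ = w σ ∨ v σ = w' σ) (hl : lastw w a τ = lastw w' a τ)
    (hc : memo c0 w τ a = memo c0 w' τ a) : memo c0 v τ a = memo c0 w τ a := by
  induction τ with
  | zero => rfl
  | succ τ ih =>
    rw [memo, memo]
    rw [memo, memo] at hc
    rw [lastw, lastw] at hl
    by_cases h1 : ∃ x, w τ = some (a, x)
    · rw [if_pos h1] at hl
      have h2 : ∃ x, w' τ = some (a, x) := by
        by_contra hcon
        rw [if_neg hcon] at hl
        have := lastw_lt w' a τ τ hl.symm
        omega
      obtain ⟨x, hx⟩ := h1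
      obtain ⟨x', hx'⟩ := h2
      rw [hx, hx', write_same, write_same] at hc
      subst hc
      rcases hv τ (Nat.lt_succ_self τ) with h | h
      · rw [h, hx, write_same, write_same]
      · rw [h, hx', hx, write_same, write_same]
    · rw [if_neg h1] at hl
      have h2 : ¬ ∃ x, w' τ = some (a, x) := by
        intro hcon
        rw [if_pos hcon] at hl
        have := lastw_lt w a τ τ hl
        omega
      rw [if_neg h2] at hl
      have h1' : ∀ x, w τ ≠ some (a, x) := fun x hx => h1 ⟨x, hx⟩
      have h2' : ∀ x, w' τ ≠ some (a, x) := fun x hx => h2 ⟨x, hx⟩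
      rw [write_not _ _ _ h1', write_not _ _ _ h2'] at hc
      rw [write_not _ _ _ h1']
      have h3 : ∀ x, v τ ≠ some (a, x) := by
        rcases hv τ (Nat.lt_succ_self τ) with h | h
        · rw [h]; exact h1'
        · rw [h]; exact h2'
      rw [write_not _ _ _ h3]
      exact ih (fun σ hσ => hv σ (by omega)) hl hc

lemma memo_congr (c0 : A → Γ) (w w' : ℕ → Option (A × Γ)) (τ : ℕ) (h : ∀ σ < τ, w σ = w' σ) :
    memo c0 w τ = memo c0 w' τ := by
  induction τ with
  | zero => rfl
  | succ τ ih => rw [memo, memo, ih (fun σ hσ => h σ (by omega)), h τ (Nat.lt_succ_self τ)]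

end Write

section Record

open Classical in
/-- The record of step `τ`: of the write if `b = true`, of the read if `b = false`. -/
noncomputable def FM.recd (M : FM J B U Q A Γ) (b : Bool) (q : ℕ → Q) (w : ℕ → Option (A × Γ))
    (τ : ℕ) : Option (Option ℕ × A × Γ) :=
  if b then (w τ).map fun p => (none, p)
  else (M.rd τ (q τ)).map fun a => (lastw w a τ, a, memo M.init w τ a)

/-- The graph of `f` on the first `t` times. -/
def grph {X : Type} (t : ℕ) (f : ℕ → Option X) : Finset (Σ _ : ℕ, X) :=
  (Finset.range t).sigma fun τ => (f τ).toFinset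

lemma grph_inj {X : Type} {t : ℕ} {f f' : ℕ → Option X} (h : grph t f = grph t f') (τ : ℕ)
    (hτ : τ < t) : f τ = f' τ := by
  have h1 : ∀ x, f τ = some x ↔ f' τ = some x := by
    intro x
    have h2 : (⟨τ, x⟩ : Σ _ : ℕ, X) ∈ grph t f ↔ (⟨τ, x⟩ : Σ _ : ℕ, X) ∈ grph t f' := by rw [h]
    simpa [grph, hτ] using h2
  exact Option.ext fun x => by simpa using h1 x

open Classical in
lemma grph_card {X : Type} (t : ℕ) (f : ℕ → Option X) :
    (grph t f).card = ((Finset.range t).filter fun i => f i ≠ none).card := by
  rw [grph, Finset.card_sigma, Finset.card_filter]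
  refine Finset.sum_congr rfl fun i _ => ?_
  rcases h : f i with _ | x <;> simp

open Classical in
/-- The number of far reads. -/
noncomputable def FM.reads (M : FM J B U Q A Γ) (t : ℕ) (q : ℕ → Q) : ℕ :=
  ((Finset.range t).filter fun i => M.rd i (q i) ≠ none).card

/-- The number of far accesses that is counted. -/
noncomputable def FM.far (M : FM J B U Q A Γ) (b : Bool) (t : ℕ) (q : ℕ → Q)
    (w : ℕ → Option (A × Γ)) : ℕ :=
  if b then writes t w else M.reads t q

lemma FM.far_eq (M : FM J B U Q A Γ) (b : Bool) (t : ℕ) (q : ℕ → Q) (w : ℕ → Option (A × Γ)) :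
    M.far b t q w = (grph t (M.recd b q w)).card := by
  classical
  rw [grph_card]
  cases b with
  | true =>
    simp only [FM.far, if_true, writes]
    congr 1
    ext i
    simp [FM.recd]
  | false =>
    simp only [FM.far, Bool.false_eq_true, if_false, FM.reads]
    congr 1
    ext i
    simp [FM.recd]

end Record

section Hybrid

variable [Fintype J] [Fintype B] [Fintype U] [DecidableEq J] [DecidableEq B] [DecidableEq U]

/-- The mixture of two sequences. -/
def mixf {X : Type} (χ : ℕ → Bool) (L : ℕ) (f f' : ℕ → X) (τ : ℕ) : X :=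
  if χ (τ / L) then f τ else f' τ

lemma mixf_true {X : Type} {χ : ℕ → Bool} {L : ℕ} {f f' : ℕ → X} {τ : ℕ} (h : χ (τ / L) = true) :
    mixf χ L f f' τ = f τ := by rw [mixf, if_pos h]

lemma mixf_false {X : Type} {χ : ℕ → Bool} {L : ℕ} {f f' : ℕ → X} {τ : ℕ}
    (h : χ (τ / L) = false) : mixf χ L f f' τ = f' τ := by
  rw [mixf, if_neg]; simp [h]

/-- Mixing two runs. -/
lemma hybrid (M : FM J B U Q A Γ) (t L : ℕ) (χ : ℕ → Bool) (z : Inp J B U)
    (F1 F2 : Finset ((J × U) × B)) (g g' : Inp J B U) (hg1 : g.1 ∈ Gam F1) (hg1' : g'.1 ∈ Gam F1)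
    (hg2 : g.2 ∈ Gam F2) (hg2' : g'.2 ∈ Gam F2) (q q' : ℕ → Q) (w w' : ℕ → Option (A × Γ))
    (hp : M.Run t (z * g) q w) (hp' : M.Run t (z * g') q' w')
    (hbd : ∀ τ < t, (τ + 1) % L = 0 → q (τ + 1) = q' (τ + 1))
    (hm1 : ∀ τ < t, χ (τ / L) = true → M.val q (mixf χ L w w') τ = M.val q w τ)
    (hm2 : ∀ τ < t, χ (τ / L) = false → M.val q' (mixf χ L w w') τ = M.val q' w' τ)
    (h2 : ∀ τ < t, χ (τ / L) = true → ∀ p, M.ask τ (q τ) (M.val q w τ) = some p → p.1 = false →
      src (z * g) p ∉ F2)
    (h1 : ∀ τ < t, χ (τ / L) = false → ∀ p, M.ask τ (q' τ) (M.val q' w' τ) = some p →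
      p.1 = true → src (z * g') p ∉ F1) :
    M.Run t (z * (g.1, g'.2)) (mixf χ L q q') (mixf χ L w w') := by
  have hseg : ∀ τ, τ < t → q (τ + 1) = q' (τ + 1) ∨ (τ + 1) / L = τ / L := by
    intro τ hτ
    by_cases hm : (τ + 1) % L = 0
    · exact Or.inl (hbd τ hτ hm)
    · right
      rw [Nat.succ_div, if_neg, add_zero]
      intro hd
      exact hm (Nat.mod_eq_zero_of_dvd hd)
  have hvalc : ∀ (p p' : ℕ → Q) τ, p τ = p' τ → M.val p (mixf χ L w w') τ =
      M.val p' (mixf χ L w w') τ := by
    intro p p' τ h
    simp only [FM.val, h]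
  refine ⟨?_, ?_, ?_⟩
  · simp only [mixf]
    split_ifs
    · exact hp.1
    · exact hp'.1
  · intro τ hτ
    by_cases hc : χ (τ / L) = true
    · have hq : mixf χ L q q' τ = q τ := mixf_true hc
      have hw : mixf χ L w w' τ = w τ := mixf_true hc
      have hnext : mixf χ L q q' (τ + 1) = q (τ + 1) := by
        rcases hseg τ hτ with h | h
        · rw [mixf, h]; simp
        · rw [mixf, h, if_pos hc]
      have hval : M.val (mixf χ L q q') (mixf χ L w w') τ = M.val q w τ := by
        rw [hvalc _ q τ hq]
        exact hm1 τ hτ hc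
      rw [hnext, hval, hq, hw]
      have hans : (M.ask τ (q τ) (M.val q w τ)).map (ans (z * (g.1, g'.2))) =
          (M.ask τ (q τ) (M.val q w τ)).map (ans (z * g)) := by
        rcases hqq : M.ask τ (q τ) (M.val q w τ) with _ | p
        · rfl
        · simp only [Option.map_some]
          congr 1
          symm
          apply ans_eq_of_perm
          by_cases hty : p.1 = true
          · simp only [thePerm, hty, if_true]
            rfl
          · have hty' : p.1 = false := by simpa using hty
            have hsrc := h2 τ hτ hc p hqq hty'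
            have e1 := mem_Gam.1 hg2 p.2.1.1 p.2.1.2 (srcElt (z * g) p) hsrc
            have e2 := mem_Gam.1 hg2' p.2.1.1 p.2.1.2 (srcElt (z * g) p) hsrc
            have p1 : thePerm (z * g) p = z.2 p.2.1 * g.2 p.2.1 := by
              simp only [thePerm, hty', Bool.false_eq_true, if_false]; rfl
            have p2 : thePerm (z * (g.1, g'.2)) p = z.2 p.2.1 * g'.2 p.2.1 := by
              simp only [thePerm, hty', Bool.false_eq_true, if_false]; rfl
            rw [p1, p2, Perm.mul_apply, Perm.mul_apply]
            have e1' : g.2 p.2.1 (srcElt (z * g) p) = srcElt (z * g) p := e1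
            have e2' : g'.2 p.2.1 (srcElt (z * g) p) = srcElt (z * g) p := e2
            rw [e1', e2']
      rw [hans]
      exact hp.2.1 τ hτ
    · have hc' : χ (τ / L) = false := by simpa using hc
      have hq : mixf χ L q q' τ = q' τ := mixf_false hc'
      have hw : mixf χ L w w' τ = w' τ := mixf_false hc'
      have hnext : mixf χ L q q' (τ + 1) = q' (τ + 1) := by
        rcases hseg τ hτ with h | h
        · rw [mixf, h]; simp
        · rw [mixf, h, if_neg hc]
      have hval : M.val (mixf χ L q q') (mixf χ L w w') τ = M.val q' w' τ := by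
        rw [hvalc _ q' τ hq]
        exact hm2 τ hτ hc'
      rw [hnext, hval, hq, hw]
      have hans : (M.ask τ (q' τ) (M.val q' w' τ)).map (ans (z * (g.1, g'.2))) =
          (M.ask τ (q' τ) (M.val q' w' τ)).map (ans (z * g')) := by
        rcases hqq : M.ask τ (q' τ) (M.val q' w' τ) with _ | p
        · rfl
        · simp only [Option.map_some]
          congr 1
          symm
          apply ans_eq_of_perm
          by_cases hty : p.1 = true
          · have hsrc := h1 τ hτ hc' p hqq hty
            have e1 := mem_Gam.1 hg1 p.2.1.1 p.2.1.2 (srcElt (z * g') p) hsrc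
            have e2 := mem_Gam.1 hg1' p.2.1.1 p.2.1.2 (srcElt (z * g') p) hsrc
            have p1 : thePerm (z * g') p = z.1 p.2.1 * g'.1 p.2.1 := by
              simp only [thePerm, hty, if_true]; rfl
            have p2 : thePerm (z * (g.1, g'.2)) p = z.1 p.2.1 * g.1 p.2.1 := by
              simp only [thePerm, hty, if_true]; rfl
            rw [p1, p2, Perm.mul_apply, Perm.mul_apply]
            have e1' : g.1 p.2.1 (srcElt (z * g') p) = srcElt (z * g') p := e1
            have e2' : g'.1 p.2.1 (srcElt (z * g') p) = srcElt (z * g') p := e2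
            rw [e1', e2']
          · have hty' : p.1 = false := by simpa using hty
            simp only [thePerm, hty', Bool.false_eq_true, if_false]
            rfl
      rw [hans]
      exact hp'.2.1 τ hτ
  · simp only [mixf]
    split_ifs
    · exact hp.2.2
    · exact hp'.2.2

/-- Equal records make the contents read by a mixture correct. -/
lemma val_mix (M : FM J B U Q A Γ) (b : Bool) (t L : ℕ) (χ : ℕ → Bool) (q q' : ℕ → Q)
    (w w' : ℕ → Option (A × Γ)) (hrec : ∀ τ < t, M.recd b q w τ = M.recd b q' w' τ) (τ : ℕ)
    (hτ : τ < t) : M.val q (mixf χ L w w') τ = M.val q w τ ∧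
      M.val q' (mixf χ L w w') τ = M.val q' w' τ := by
  have hmx : ∀ σ, mixf χ L w w' σ = w σ ∨ mixf χ L w w' σ = w' σ := by
    intro σ
    rw [mixf]
    split_ifs
    · exact Or.inl rfl
    · exact Or.inr rfl
  cases b with
  | true =>
    have hw : ∀ σ < t, w σ = w' σ := by
      intro σ hσ
      have := hrec σ hσ
      simp only [FM.recd, if_true] at this
      exact Option.map_injective (fun a b h => by simpa using h) this
    have h1 : memo M.init (mixf χ L w w') τ = memo M.init w τ :=
      memo_congr _ _ _ _ fun σ hσ => by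
        rcases hmx σ with h | h
        · exact h
        · rw [h]; exact (hw σ (by omega)).symm
    have h2 : memo M.init w τ = memo M.init w' τ :=
      memo_congr _ _ _ _ fun σ hσ => hw σ (by omega)
    exact ⟨by rw [FM.val, FM.val, h1], by rw [FM.val, FM.val, h1, h2]⟩
  | false =>
    have h0 := hrec τ hτ
    simp only [FM.recd, Bool.false_eq_true, if_false] at h0
    rcases h1 : M.rd τ (q τ) with _ | a
    · rw [h1] at h0
      simp only [Option.map_none] at h0
      have h2 : M.rd τ (q' τ) = none := by
        rcases h3 : M.rd τ (q' τ) with _ | a'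
        · rfl
        · rw [h3] at h0; simp at h0
      simp [FM.val, h1, h2]
    · rw [h1] at h0
      rcases h3 : M.rd τ (q' τ) with _ | a'
      · rw [h3] at h0; simp at h0
      · rw [h3] at h0
        simp only [Option.map_some, Option.some.injEq, Prod.mk.injEq] at h0
        obtain ⟨h4, rfl, h5⟩ := h0
        have h6 := memo_mix M.init w w' (mixf χ L w w') a τ (fun σ _ => hmx σ) h4 h5
        simp only [FM.val, h1, h3, Option.map_some, h6, h5, and_self]

/-- Equal records make the number of far accesses of a mixture correct. -/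
lemma far_mix (M : FM J B U Q A Γ) (b : Bool) (t L : ℕ) (χ : ℕ → Bool) (q q' : ℕ → Q)
    (w w' : ℕ → Option (A × Γ)) (hrec : ∀ τ < t, M.recd b q w τ = M.recd b q' w' τ) :
    M.far b t (mixf χ L q q') (mixf χ L w w') = M.far b t q w := by
  classical
  cases b with
  | true =>
    have hw : ∀ σ < t, w σ = w' σ := by
      intro σ hσ
      have := hrec σ hσ
      simp only [FM.recd, if_true] at this
      exact Option.map_injective (fun a b h => by simpa using h) this
    simp only [FM.far, if_true, writes]
    congr 1
    refine Finset.filter_congr fun i hi => ?_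
    rw [Finset.mem_range] at hi
    rw [mixf]
    split_ifs
    · rfl
    · rw [hw i hi]
  | false =>
    simp only [FM.far, Bool.false_eq_true, if_false, FM.reads]
    congr 1
    refine Finset.filter_congr fun i hi => ?_
    rw [Finset.mem_range] at hi
    rw [mixf]
    split_ifs
    · rfl
    · have h0 := hrec i hi
      simp only [FM.recd, Bool.false_eq_true, if_false] at h0
      rcases h1 : M.rd i (q i) with _ | a <;> rcases h2 : M.rd i (q' i) with _ | a' <;>
        simp [h1, h2] at h0 ⊢

end Hybrid

end Pool.Agent.ACC
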