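import Mathlib
import Pool.Agent.Lib_helper21.TS.Bound
import Pool.Agent.Lib_helper21.HM.Count
import Pool.Agent.ACC.Hybrid

/-!
# The number of inputs accepted by a machine with a far memory
-/

namespace Pool.Agent.ACC

open Finset Equiv Pool.Agent.TS Pool.Agent.HM

variable {J B U Q A Γ : Type}

/-- The machine that only asks. -/
def askAM (M : FM J B U Q A Γ) : AM J B U (Q × Option Γ) where
  start _ := True
  acc _ := True
  ask τ x := M.ask τ x.1 x.2
  step _ _ _ _ := True

section

variable [Fintype A] [Fintype Γ]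

/-- The set of the possible records. -/
def recSpace (A Γ : Type) [Fintype A] [Fintype Γ] (t : ℕ) :
    Finset (Σ _ : ℕ, Option ℕ × A × Γ) :=
  (Finset.range t).sigma fun _ => Finset.insertNone (Finset.range t) ×ˢ (Finset.univ ×ˢ Finset.univ)

lemma recSpace_card (t : ℕ) :
    (recSpace A Γ t).card = t * ((t + 1) * (Fintype.card A * Fintype.card Γ)) := by
  simp [recSpace, Finset.card_sigma]

lemma grph_sub (M : FM J B U Q A Γ) (b : Bool) (t : ℕ) (q : ℕ → Q) (w : ℕ → Option (A × Γ)) :
    grph t (M.recd b q w) ⊆ recSpace A Γ t := by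
  rintro ⟨τ, o, a, v⟩ h
  simp only [grph, Finset.mem_sigma, Finset.mem_range, Option.mem_toFinset, Option.mem_def] at h
  obtain ⟨h1, h2⟩ := h
  simp only [recSpace, Finset.mem_sigma, Finset.mem_range, Finset.mem_product, Finset.mem_univ,
    and_true]
  refine ⟨h1, ?_⟩
  rcases o with _ | σ
  · exact Finset.none_mem_insertNone
  · rw [Finset.some_mem_insertNone, Finset.mem_range]
    cases b with
    | true => simp [FM.recd] at h2
    | false =>
      simp only [FM.recd, Bool.false_eq_true, if_false, Option.map_eq_some_iff,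
        Prod.mk.injEq] at h2
      obtain ⟨a', _, h3, _⟩ := h2
      have := lastw_lt w a' τ σ h3
      omega

end

section Count

variable [Fintype J] [Fintype B] [Fintype U] [DecidableEq J] [DecidableEq B] [DecidableEq U]
  [Fintype Q] [Fintype A] [Fintype Γ]

open Classical in
/-- The inputs with an accepting run of exactly `t` steps with at most `F` far accesses of the
kind `b`. -/
noncomputable def accSet (M : FM J B U Q A Γ) (b : Bool) (t F : ℕ) : Finset (Inp J B U) :=
  Finset.univ.filter fun z => ∃ q w, M.Run t z q w ∧ M.far b t q w ≤ F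

omit [Fintype Q] [Fintype A] [Fintype Γ] in
lemma mem_accSet {M : FM J B U Q A Γ} {b : Bool} {t F : ℕ} {z : Inp J B U} :
    z ∈ accSet M b t F ↔ ∃ q w, M.Run t z q w ∧ M.far b t q w ≤ F := by
  classical
  simp [accSet]

theorem accept_count (E : B × U → B × U → Prop) (β : ℝ) (hβ : 0 < β)
    (hmix : ∀ V W : Finset (B × U), (∀ x ∈ V, ∀ y ∈ W, ¬ E x y) →
      (V.card : ℝ) * W.card ≤ (β ^ 2 * (Fintype.card B * Fintype.card U)) ^ 2)
    (hU : 0 < Fintype.card U) (hB : 0 < Fintype.card B) (M : FM J B U Q A Γ) (b : Bool)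
    (T L r F : ℕ) (hL : 0 < L)
    (hTr : T ≤ r * L) (h : ℝ) (hh : 1 ≤ h)
    (htot : (T : ℝ) ≤ Fintype.card (J × U) * Fintype.card B * Real.logb 2 h)
    (hpair : (r * L ^ 2 : ℝ) ≤ Fintype.card (J × U) * (Fintype.card B) ^ 2 / (2 * h))
    (n' d' : ℕ) (hn' : n' = ⌈(Fintype.card (J × U) : ℝ) / (4 * h)⌉₊)
    (hd' : d' = ⌈(Fintype.card B : ℝ) / (4 * h)⌉₊)
    (A0 : ℝ) (hA0 : 0 < A0) (hA01 : A0 ≤ 1)
    (hbig : 2 * β * (Fintype.card J * Fintype.card U * Fintype.card B) ≤
      (n' * d' : ℝ) / 2 * A0)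
    (hacc : ∀ z : Inp J B U, (∃ q w, M.Run T z q w ∧ M.far b T q w ≤ F) → TFree E z.1 z.2) :
    ((accSet M b T F).card : ℝ) ≤ (Fintype.card Q : ℝ) ^ r * 2 ^ r *
      ((Fintype.card ((J × U) × B)).choose (n' * d') : ℝ) ^ 2 *
      ((T * ((T + 1) * (Fintype.card A * Fintype.card Γ)) + 1 : ℝ) ^ F) *
      (Real.exp ((n' * d' : ℝ) + (n' * d' : ℝ) / 2 * Real.log A0) * Fintype.card (Inp J B U)) := by
  classical
  rcases isEmpty_or_nonempty Q with hQ | hQ
  · have : accSet M b T F = (∅ : Finset (Inp J B U)) := by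
      rw [Finset.eq_empty_iff_forall_notMem]
      intro z hz
      obtain ⟨q, _, _⟩ := mem_accSet.1 hz
      exact hQ.elim (q 0)
    rw [this]
    simp only [Finset.card_empty, Nat.cast_zero]
    positivity
  -- data for each accepted input
  have hdata : ∀ z : Inp J B U, (∃ q w, M.Run T z q w ∧ M.far b T q w ≤ F) →
      ∃ (q : ℕ → Q) (w : ℕ → Option (A × Γ)) (χ : Fin r → Bool)
      (C : Finset (J × U)) (F1 F2 : Finset ((J × U) × B)), M.Run T z q w ∧ M.far b T q w ≤ F ∧
      Regular n' d' C F1 ∧ Regular n' d' C F2 ∧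
      (∀ e ∈ F1, ∀ j : Fin r, e ∈ hits (askAM M) T L z (fun τ => (q τ, M.val q w τ)) true j →
        χ j = true) ∧
      (∀ e ∈ F2, ∀ j : Fin r, e ∈ hits (askAM M) T L z (fun τ => (q τ, M.val q w τ)) false j →
        χ j = false) := by
    rintro z ⟨q, w, hp, hf⟩
    obtain ⟨χ, C, F1, F2, h1, h2, h3, h4⟩ := exists_selection
      (fun j : Fin r => hits (askAM M) T L z (fun τ => (q τ, M.val q w τ)) true j)
      (fun j : Fin r => hits (askAM M) T L z (fun τ => (q τ, M.val q w τ)) false j) h hh hB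
      (by
        refine le_trans ?_ htot
        have h5 : ∑ j : Fin r, ((hits (askAM M) T L z (fun τ => (q τ, M.val q w τ)) true j).card +
            (hits (askAM M) T L z (fun τ => (q τ, M.val q w τ)) false j).card) ≤ T :=
          (Finset.sum_le_sum (fun (j : Fin r) _ => hits_card (askAM M) T L z _ j)).trans
            (seg_sum_le T L r)
        exact_mod_cast h5)
      (by
        refine le_trans ?_ hpair
        have h5 : ∑ j : Fin r, (hits (askAM M) T L z (fun τ => (q τ, M.val q w τ)) true j).card *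
            (hits (askAM M) T L z (fun τ => (q τ, M.val q w τ)) false j).card ≤
            r * L ^ 2 := by
          calc _ ≤ ∑ _j : Fin r, L ^ 2 := by
                refine Finset.sum_le_sum fun j _ => ?_
                have h6 := (hits_card (askAM M) T L z (fun τ => (q τ, M.val q w τ)) j).trans
                  (seg_card_le T L j hL)
                rw [sq]
                exact Nat.mul_le_mul (by omega) (by omega)
            _ = _ := by simp
        exact_mod_cast h5)
    subst hn' hd'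
    exact ⟨q, w, χ, C, F1, F2, hp, hf, h1, h2, h3, h4⟩
  choose! fq fw fχ fC fF1 fF2 hf using hdata
  set dat : Inp J B U → (Fin r → Q) × (Fin r → Bool) × Finset ((J × U) × B) ×
    Finset ((J × U) × B) × Finset (Σ _ : ℕ, Option ℕ × A × Γ) :=
      fun z => (fun j => fq z ((j + 1) * L), fχ z, fF1 z, fF2 z,
        grph T (M.recd b (fq z) (fw z))) with hdat
  set tgt : Finset ((Fin r → Q) × (Fin r → Bool) × Finset ((J × U) × B) ×
    Finset ((J × U) × B) × Finset (Σ _ : ℕ, Option ℕ × A × Γ)) :=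
      Finset.univ ×ˢ (Finset.univ ×ˢ
      (Finset.powersetCard (n' * d') Finset.univ ×ˢ
        (Finset.powersetCard (n' * d') Finset.univ ×ˢ smallSets (recSpace A Γ T) F))) with htgt
  have hmaps : ∀ z ∈ accSet M b T F, dat z ∈ tgt := by
    intro z hz
    have h1 := hf z (mem_accSet.1 hz)
    simp only [hdat, htgt, Finset.mem_product, Finset.mem_univ, true_and,
      Finset.mem_powersetCard_univ]
    refine ⟨h1.2.2.1.card, h1.2.2.2.1.card, mem_smallSets.2 ⟨grph_sub M b T _ _, ?_⟩⟩
    rw [← FM.far_eq]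
    exact h1.2.1
  have htgtcard : (tgt.card : ℝ) ≤ (Fintype.card Q : ℝ) ^ r * 2 ^ r *
      ((Fintype.card ((J × U) × B)).choose (n' * d') : ℝ) ^ 2 *
      ((T * ((T + 1) * (Fintype.card A * Fintype.card Γ)) + 1 : ℝ) ^ F) := by
    have h1 : ((smallSets (recSpace A Γ T) F).card : ℝ) ≤
        (T * ((T + 1) * (Fintype.card A * Fintype.card Γ)) + 1 : ℝ) ^ F := by
      have h2 := smallSets_card (recSpace A Γ T) F
      rw [recSpace_card] at h2
      exact_mod_cast h2
    simp only [htgt, Finset.card_product, Finset.card_univ, Finset.card_powersetCard,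
      Fintype.card_fun, Fintype.card_fin, Fintype.card_bool]
    push_cast
    calc _ = ((Fintype.card Q : ℝ) ^ r * 2 ^ r *
          ((Fintype.card ((J × U) × B)).choose (n' * d') : ℝ) ^ 2) *
          ((smallSets (recSpace A Γ T) F).card : ℝ) := by ring
      _ ≤ _ := mul_le_mul_of_nonneg_left h1 (by positivity)
  have hfib : ∀ D0 ∈ tgt, (((accSet M b T F).filter fun z => dat z = D0).card : ℝ) ≤
      Real.exp ((n' * d' : ℝ) + (n' * d' : ℝ) / 2 * Real.log A0) * Fintype.card (Inp J B U) := by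
    rintro ⟨σ, χ, F1, F2, R⟩ _
    rcases ((accSet M b T F).filter fun z => dat z = (σ, χ, F1, F2, R)).eq_empty_or_nonempty with
      he | hne
    · rw [he]; simp only [Finset.card_empty, Nat.cast_zero]; positivity
    obtain ⟨z0, hz0⟩ := hne
    rw [Finset.mem_filter] at hz0
    have hz0' := hf z0 (mem_accSet.1 hz0.1)
    have hF1e : fF1 z0 = F1 := by
      have := hz0.2; simp only [hdat, Prod.mk.injEq] at this; exact this.2.2.1
    have hF2e : fF2 z0 = F2 := by
      have := hz0.2; simp only [hdat, Prod.mk.injEq] at this; exact this.2.2.2.1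
    have hreg1 : Regular n' d' (fC z0) F1 := by rw [← hF1e]; exact hz0'.2.2.1
    have hreg2 : Regular n' d' (fC z0) F2 := by rw [← hF2e]; exact hz0'.2.2.2.1
    apply orbit_bound _ F1 F2
    intro z
    set P := (Gam F1 ×ˢ Gam F2).filter fun g : Inp J B U =>
      z * g ∈ (accSet M b T F).filter fun z => dat z = (σ, χ, F1, F2, R) with hP
    set S1 : Finset (J × B → Perm U) := P.image Prod.fst with hS1
    set S2 : Finset (J × B → Perm U) := P.image Prod.snd with hS2
    have hPle : (P.card : ℝ) ≤ (S1.card : ℝ) * S2.card := by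
      have : P ⊆ S1 ×ˢ S2 := by
        intro g hg
        rw [Finset.mem_product]
        exact ⟨Finset.mem_image_of_mem _ hg, Finset.mem_image_of_mem _ hg⟩
      have := Finset.card_le_card this
      rw [Finset.card_product] at this
      exact_mod_cast this
    refine hPle.trans ?_
    refine rect_small E β hβ hmix z.1 z.2 n' d' (fC z0) F1 F2 hreg1 hreg2 S1 S2 ?_ ?_ ?_ A0 hA0
      hA01 hbig hU
    · intro g1 hg1
      rw [hS1, Finset.mem_image] at hg1
      obtain ⟨g, hg, rfl⟩ := hg1
      rw [hP, Finset.mem_filter, Finset.mem_product] at hg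
      exact hg.1.1
    · intro g2 hg2
      rw [hS2, Finset.mem_image] at hg2
      obtain ⟨g, hg, rfl⟩ := hg2
      rw [hP, Finset.mem_filter, Finset.mem_product] at hg
      exact hg.1.2
    · intro g1 hg1 g2 hg2
      rw [hS1, Finset.mem_image] at hg1
      rw [hS2, Finset.mem_image] at hg2
      obtain ⟨g, hg, rfl⟩ := hg1
      obtain ⟨g', hg', rfl⟩ := hg2
      rw [hP, Finset.mem_filter, Finset.mem_product, Finset.mem_filter] at hg hg'
      obtain ⟨hgG, hgA, hgD⟩ := hg
      obtain ⟨hgG', hgA', hgD'⟩ := hg'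
      have hr := hf (z * g) (mem_accSet.1 hgA)
      have hr' := hf (z * g') (mem_accSet.1 hgA')
      simp only [hdat, Prod.mk.injEq] at hgD hgD'
      obtain ⟨d1, d2, d3, d4, d5⟩ := hgD
      obtain ⟨d1', d2', d3', d4', d5'⟩ := hgD'
      rw [d2, d3, d4] at hr
      rw [d2', d3', d4'] at hr'
      have hrec : ∀ τ < T, M.recd b (fq (z * g)) (fw (z * g)) τ =
          M.recd b (fq (z * g')) (fw (z * g')) τ :=
        fun τ hτ => grph_inj (d5.trans d5'.symm) τ hτ
      -- the colouring extended to all naturals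
      set χ' : ℕ → Bool := fun j => if hj : j < r then χ ⟨j, hj⟩ else true with hχ'
      have hdivlt : ∀ τ < T, τ / L < r := by
        intro τ hτ
        rw [Nat.div_lt_iff_lt_mul hL]
        omega
      have hrun := hybrid M T L χ' z F1 F2 g g' hgG.1 hgG'.1 hgG.2 hgG'.2 (fq (z * g))
        (fq (z * g')) (fw (z * g)) (fw (z * g')) hr.1 hr'.1 ?_
        (fun τ hτ _ => (val_mix M b T L χ' _ _ _ _ hrec τ hτ).1)
        (fun τ hτ _ => (val_mix M b T L χ' _ _ _ _ hrec τ hτ).2) ?_ ?_
      · refine hacc _ ⟨_, _, hrun, ?_⟩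
        rw [far_mix M b T L χ' _ _ _ _ hrec]
        exact hr.2.1
      · intro τ hτ hm
        obtain ⟨k, hk⟩ := Nat.dvd_of_mod_eq_zero hm
        have hk0 : k ≠ 0 := by rintro rfl; omega
        obtain ⟨k', rfl⟩ := Nat.exists_eq_succ_of_ne_zero hk0
        have hk'r : k' < r := by
          have h1 : L * (k' + 1) ≤ r * L := by
            have : L * (k' + 1) = τ + 1 := hk.symm
            omega
          have h2 : L * (k' + 1) ≤ L * r := by rw [mul_comm L r]; exact h1
          have := Nat.le_of_mul_le_mul_left h2 hL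
          omega
        have e1 := congrFun d1 ⟨k', hk'r⟩
        have e2 := congrFun d1' ⟨k', hk'r⟩
        simp only at e1 e2
        have : τ + 1 = (k' + 1) * L := by rw [hk, mul_comm]
        rw [this, e1, e2]
      · intro τ hτ hc p hq hty hin
        have hlt := hdivlt τ hτ
        have := hr.2.2.2.2.2 _ hin ⟨τ / L, hlt⟩ (mem_hits.2 ⟨τ, hτ, rfl, p, hq, hty, rfl⟩)
        simp only [hχ', dif_pos hlt] at hc
        rw [this] at hc
        exact absurd hc (by decide)
      · intro τ hτ hc p hq hty hin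
        have hlt := hdivlt τ hτ
        have := hr'.2.2.2.2.1 _ hin ⟨τ / L, hlt⟩ (mem_hits.2 ⟨τ, hτ, rfl, p, hq, hty, rfl⟩)
        simp only [hχ', dif_pos hlt] at hc
        rw [this] at hc
        exact absurd hc (by decide)
  rw [Finset.card_eq_sum_card_fiberwise hmaps]
  push_cast
  calc _ ≤ ∑ _D0 ∈ tgt, Real.exp ((n' * d' : ℝ) + (n' * d' : ℝ) / 2 * Real.log A0) *
        Fintype.card (Inp J B U) := Finset.sum_le_sum hfib
    _ = (tgt.card : ℝ) * (Real.exp ((n' * d' : ℝ) + (n' * d' : ℝ) / 2 * Real.log A0) *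
        Fintype.card (Inp J B U)) := by rw [Finset.sum_const, nsmul_eq_mul]
    _ ≤ _ := mul_le_mul_of_nonneg_right htgtcard (by positivity)

/-- The inequality forced by a machine accepting exactly the triangle-free inputs. -/
theorem machine_ineq (E : B × U → B × U → Prop) (β : ℝ) (hβ : 0 < β)
    (hmix : ∀ V W : Finset (B × U), (∀ x ∈ V, ∀ y ∈ W, ¬ E x y) →
      (V.card : ℝ) * W.card ≤ (β ^ 2 * (Fintype.card B * Fintype.card U)) ^ 2)
    (D : ℕ)
    (hrow : ∀ (π : J × B → Perm U) κ u, ∀ [DecidablePred (forb E π κ u)],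
      (Finset.univ.filter fun v => forb E π κ u v).card ≤ D)
    (hcol : ∀ (π : J × B → Perm U) κ v, ∀ [DecidablePred fun u => forb E π κ u v],
      (Finset.univ.filter fun u => forb E π κ u v).card ≤ D)
    (h2 : 2 * D ≤ Fintype.card U)
    (hU : 0 < Fintype.card U) (hB : 0 < Fintype.card B) (M : FM J B U Q A Γ) (T L r F : ℕ)
    (hL : 0 < L)
    (hTr : T ≤ r * L) (h : ℝ) (hh : 1 ≤ h)
    (htot : (T : ℝ) ≤ Fintype.card (J × U) * Fintype.card B * Real.logb 2 h)
    (hpair : (r * L ^ 2 : ℝ) ≤ Fintype.card (J × U) * (Fintype.card B) ^ 2 / (2 * h))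
    (n' d' : ℕ) (hn' : n' = ⌈(Fintype.card (J × U) : ℝ) / (4 * h)⌉₊)
    (hd' : d' = ⌈(Fintype.card B : ℝ) / (4 * h)⌉₊)
    (A0 : ℝ) (hA0 : 0 < A0) (hA01 : A0 ≤ 1)
    (hbig : 2 * β * (Fintype.card J * Fintype.card U * Fintype.card B) ≤
      (n' * d' : ℝ) / 2 * A0)
    (hacc : ∀ z : Inp J B U, (∃ T' ≤ T, ∃ b q w, M.Run T' z q w ∧ M.far b T' q w ≤ F) ↔
      TFree E z.1 z.2) :
    (1 : ℝ) ≤ (Fintype.card U : ℝ) ^ (2 * D * Fintype.card (J × B)) * ((2 * (T + 1)) *
      ((Fintype.card Q : ℝ) ^ r * 2 ^ r *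
      ((Fintype.card ((J × U) × B)).choose (n' * d') : ℝ) ^ 2 *
      ((T * ((T + 1) * (Fintype.card A * Fintype.card Γ)) + 1 : ℝ) ^ F) *
      Real.exp ((n' * d' : ℝ) + (n' * d' : ℝ) / 2 * Real.log A0))) := by
  classical
  set X : ℝ := (Fintype.card Q : ℝ) ^ r * 2 ^ r *
      ((Fintype.card ((J × U) × B)).choose (n' * d') : ℝ) ^ 2 *
      ((T * ((T + 1) * (Fintype.card A * Fintype.card Γ)) + 1 : ℝ) ^ F) *
      Real.exp ((n' * d' : ℝ) + (n' * d' : ℝ) / 2 * Real.log A0) with hX
  have h3 : ∀ x ∈ Finset.range (T + 1) ×ˢ (Finset.univ : Finset Bool),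
      ((accSet M x.2 x.1 F).card : ℝ) ≤ X * Fintype.card (Inp J B U) := by
    rintro ⟨T', b⟩ hT'
    rw [Finset.mem_product, Finset.mem_range] at hT'
    have hT'1 : T' < T + 1 := hT'.1
    have h4 := accept_count E β hβ hmix hU hB M b T' L r F hL (by omega) h hh
      (le_trans (by exact_mod_cast (by omega : T' ≤ T)) htot) hpair n' d' hn' hd' A0 hA0 hA01
      hbig (fun z hz => by
        obtain ⟨q, w, h5, h6⟩ := hz
        exact (hacc z).1 ⟨T', by omega, b, q, w, h5, h6⟩)
    refine h4.trans ?_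
    have hTT : (T' : ℝ) ≤ T := by exact_mod_cast (by omega : T' ≤ T)
    rw [hX]
    calc _ ≤ (Fintype.card Q : ℝ) ^ r * 2 ^ r *
      ((Fintype.card ((J × U) × B)).choose (n' * d') : ℝ) ^ 2 *
      ((T * ((T + 1) * (Fintype.card A * Fintype.card Γ)) + 1 : ℝ) ^ F) *
      (Real.exp ((n' * d' : ℝ) + (n' * d' : ℝ) / 2 * Real.log A0) *
        Fintype.card (Inp J B U)) := by gcongr
      _ = _ := by ring
  have h4 : tfSet J E ⊆ (Finset.range (T + 1) ×ˢ (Finset.univ : Finset Bool)).biUnion
      fun x => accSet M x.2 x.1 F := by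
    intro z hz
    rw [mem_tfSet] at hz
    obtain ⟨T', hT', b, q, w, hp, hf⟩ := (hacc z).2 hz
    rw [Finset.mem_biUnion]
    exact ⟨(T', b), by simp; omega, mem_accSet.2 ⟨q, w, hp, hf⟩⟩
  have h5 : ((tfSet J E).card : ℝ) ≤ (2 * (T + 1)) * (X * Fintype.card (Inp J B U)) := by
    calc ((tfSet J E).card : ℝ) ≤
          (((Finset.range (T + 1) ×ˢ (Finset.univ : Finset Bool)).biUnion
            fun x => accSet M x.2 x.1 F).card : ℝ) := by
          exact_mod_cast Finset.card_le_card h4
      _ ≤ ∑ x ∈ Finset.range (T + 1) ×ˢ (Finset.univ : Finset Bool),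
            ((accSet M x.2 x.1 F).card : ℝ) := by
          exact_mod_cast Finset.card_biUnion_le
      _ ≤ ∑ _x ∈ Finset.range (T + 1) ×ˢ (Finset.univ : Finset Bool),
            X * Fintype.card (Inp J B U) := Finset.sum_le_sum h3
      _ = _ := by
          rw [Finset.sum_const, Finset.card_product, Finset.card_range, nsmul_eq_mul,
            Finset.card_univ, Fintype.card_bool]
          push_cast
          ring
  have h6 : (Fintype.card (Inp J B U) : ℝ) ≤
      (Fintype.card U : ℝ) ^ (2 * D * Fintype.card (J × B)) * (tfSet J E).card := by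
    exact_mod_cast tf_count E D hrow hcol h2
  have hI : (0 : ℝ) < Fintype.card (Inp J B U) := by exact_mod_cast Fintype.card_pos
  have h7 : (Fintype.card (Inp J B U) : ℝ) * 1 ≤ Fintype.card (Inp J B U) *
      ((Fintype.card U : ℝ) ^ (2 * D * Fintype.card (J × B)) * ((2 * (T + 1)) * X)) := by
    calc (Fintype.card (Inp J B U) : ℝ) * 1 = Fintype.card (Inp J B U) := mul_one _
      _ ≤ _ := h6
      _ ≤ (Fintype.card U : ℝ) ^ (2 * D * Fintype.card (J × B)) *
          ((2 * (T + 1)) * (X * Fintype.card (Inp J B U))) :=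
          mul_le_mul_of_nonneg_left h5 (by positivity)
      _ = _ := by ring
  exact le_of_mul_le_mul_left h7 hI

end Count

end Pool.Agent.ACC
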