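import Mathlib
import Pool.Agent.Lib_helper21.TS.Bound

/-!
# The incidence relation of the points and the lines of a plane
-/

namespace Pool.Agent.ACC

open Finset Equiv Pool.Agent.TS

variable (p : ℕ) [hp : Fact p.Prime]

/-- Points, and also lines, of the affine plane. -/
abbrev Pt : Type := ZMod p × ZMod p

variable {p}

/-- The point `x` is on the line `y`. -/
def inc (x y : Pt p) : Prop := x.2 = y.1 * x.1 + y.2

instance : DecidableRel (inc (p := p)) := fun x y => by unfold inc; infer_instance

lemma card_lines (x : Pt p) : (Finset.univ.filter fun y : Pt p => inc x y).card = p := by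
  have h : (Finset.univ.filter fun y : Pt p => inc x y).card =
      (Finset.univ : Finset (ZMod p)).card := by
    refine Finset.card_bij (fun y _ => y.1) (fun _ _ => Finset.mem_univ _) ?_ ?_
    · rintro ⟨m, c⟩ hy ⟨m', c'⟩ hy' hm
      have hy1 : x.2 = m * x.1 + c := (Finset.mem_filter.1 hy).2
      have hy2 : x.2 = m' * x.1 + c' := (Finset.mem_filter.1 hy').2
      simp only at hm
      subst hm
      rw [hy1] at hy2
      rw [add_left_cancel hy2]
    · intro m _
      refine ⟨(m, x.2 - m * x.1), ?_, rfl⟩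
      rw [Finset.mem_filter]
      refine ⟨Finset.mem_univ _, ?_⟩
      simp only [inc]
      ring
  rw [h, Finset.card_univ, ZMod.card]

lemma card_lines_two (x y : Pt p) (hxy : x ≠ y) :
    (Finset.univ.filter fun l : Pt p => inc x l ∧ inc y l).card ≤ 1 := by
  rw [Finset.card_le_one]
  rintro ⟨m, c⟩ h0 ⟨m', c'⟩ h0'
  obtain ⟨x1, x2⟩ := x
  obtain ⟨y1, y2⟩ := y
  have h : x2 = m * x1 + c ∧ y2 = m * y1 + c := (Finset.mem_filter.1 h0).2
  have h' : x2 = m' * x1 + c' ∧ y2 = m' * y1 + c' := (Finset.mem_filter.1 h0').2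
  have h1 : (m - m') * (x1 - y1) = 0 := by
    have e1 := h.1; have e2 := h.2; have e3 := h'.1; have e4 := h'.2
    rw [e1] at e3
    rw [e2] at e4
    linear_combination e3 - e4
  rcases mul_eq_zero.1 h1 with h2 | h2
  · have hm : m = m' := sub_eq_zero.1 h2
    subst hm
    have h3 := h.1
    rw [h'.1] at h3
    rw [add_left_cancel h3]
  · exfalso
    have hx : x1 = y1 := sub_eq_zero.1 h2
    subst hx
    apply hxy
    rw [h.1, h.2]

lemma inc_count (P L : Finset (Pt p)) (h : ∀ x ∈ P, ∀ y ∈ L, ¬ inc x y) :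
    (P.card : ℝ) * L.card ≤ (p : ℝ) ^ 3 := by
  rcases P.eq_empty_or_nonempty with rfl | hP
  · simp
  have hPpos : (0 : ℝ) < P.card := by exact_mod_cast Finset.card_pos.2 hP
  set N : Pt p → ℝ := fun l => ∑ x ∈ P, if inc x l then (1 : ℝ) else 0 with hN
  have hsum : ∑ l, N l = P.card * p := by
    simp only [hN]
    rw [Finset.sum_comm]
    have : ∀ x ∈ P, ∑ l : Pt p, (if inc x l then (1 : ℝ) else 0) = p := by
      intro x _
      rw [← Finset.sum_filter, Finset.sum_const, card_lines, nsmul_eq_mul, mul_one]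
    rw [Finset.sum_congr rfl this, Finset.sum_const, nsmul_eq_mul]
  have hsq : ∑ l, N l ^ 2 ≤ P.card * p + (P.card : ℝ) ^ 2 := by
    have h1 : ∀ l, N l ^ 2 = ∑ x ∈ P, ∑ y ∈ P, if inc x l ∧ inc y l then (1 : ℝ) else 0 := by
      intro l
      simp only [hN]
      rw [sq, Finset.sum_mul_sum]
      refine Finset.sum_congr rfl fun x _ => Finset.sum_congr rfl fun y _ => ?_
      by_cases hx : inc x l <;> by_cases hy : inc y l <;> simp [hx, hy]
    simp_rw [h1]
    rw [Finset.sum_comm]
    have h2 : ∀ x ∈ P, ∑ l : Pt p, ∑ y ∈ P, (if inc x l ∧ inc y l then (1 : ℝ) else 0) ≤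
        p + P.card := by
      intro x _
      rw [Finset.sum_comm]
      have h3 : ∀ y ∈ P, ∑ l : Pt p, (if inc x l ∧ inc y l then (1 : ℝ) else 0) ≤
          (if y = x then (p : ℝ) else 0) + 1 := by
        intro y _
        rw [← Finset.sum_filter, Finset.sum_const, nsmul_eq_mul, mul_one]
        split_ifs with hyx
        · subst hyx
          have : (Finset.univ.filter fun l : Pt p => inc y l ∧ inc y l) =
              Finset.univ.filter fun l : Pt p => inc y l := by
            ext l; simp
          rw [this, card_lines]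
          linarith
        · have := card_lines_two x y (fun h => hyx h.symm)
          have h4 : (((Finset.univ.filter fun l : Pt p => inc x l ∧ inc y l).card : ℕ) : ℝ) ≤ 1 := by
            exact_mod_cast this
          linarith
      refine (Finset.sum_le_sum h3).trans ?_
      rw [Finset.sum_add_distrib, Finset.sum_const, nsmul_eq_mul, mul_one]
      have h5 : ∑ y ∈ P, (if y = x then (p : ℝ) else 0) ≤ p := by
        rw [Finset.sum_ite_eq']
        split_ifs
        exact le_rfl
      linarith
    refine (Finset.sum_le_sum h2).trans (le_of_eq ?_)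
    rw [Finset.sum_const, nsmul_eq_mul]
    ring
  have htot : ∑ l : Pt p, ((p : ℝ) * N l - P.card) ^ 2 ≤ (p : ℝ) ^ 3 * P.card := by
    have h1 : ∀ l : Pt p, ((p : ℝ) * N l - P.card) ^ 2 =
        (p : ℝ) ^ 2 * N l ^ 2 - 2 * p * P.card * N l + (P.card : ℝ) ^ 2 := by
      intro l; ring
    simp_rw [h1]
    rw [Finset.sum_add_distrib, Finset.sum_sub_distrib, ← Finset.mul_sum, ← Finset.mul_sum, hsum,
      Finset.sum_const, Finset.card_univ, nsmul_eq_mul, Fintype.card_prod, ZMod.card]
    push_cast
    have h2 := mul_le_mul_of_nonneg_left hsq (show (0 : ℝ) ≤ (p : ℝ) ^ 2 by positivity)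
    nlinarith [h2]
  have hL : (L.card : ℝ) * (P.card : ℝ) ^ 2 ≤ (p : ℝ) ^ 3 * P.card := by
    refine le_trans ?_ htot
    calc (L.card : ℝ) * (P.card : ℝ) ^ 2 = ∑ _l ∈ L, (P.card : ℝ) ^ 2 := by
          rw [Finset.sum_const, nsmul_eq_mul]
      _ = ∑ l ∈ L, ((p : ℝ) * N l - P.card) ^ 2 := by
          refine Finset.sum_congr rfl fun l hl => ?_
          have : N l = 0 := by
            simp only [hN]
            refine Finset.sum_eq_zero fun x hx => ?_
            rw [if_neg (h x hx l hl)]
          rw [this]; ring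
      _ ≤ _ := Finset.sum_le_sum_of_subset_of_nonneg (Finset.subset_univ _)
          fun _ _ _ => sq_nonneg _
  have h3 : (P.card : ℝ) * ((P.card : ℝ) * L.card) ≤ P.card * (p : ℝ) ^ 3 := by
    calc _ = (L.card : ℝ) * (P.card : ℝ) ^ 2 := by ring
      _ ≤ _ := hL
      _ = _ := by ring
  exact le_of_mul_le_mul_left h3 hPpos

section Rel

variable {J B : Type} [Fintype B] [DecidableEq B]

/-- The fixed relation: the second coordinates are incident. -/
def EI (B : Type) (p : ℕ) [Fact p.Prime] (x y : B × Pt p) : Prop := inc x.2 y.2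

lemma EI_row (π : J × B → Perm (Pt p)) (κ : J × B) (u : Pt p)
    [DecidablePred (forb (EI B p) π κ u)] :
    (Finset.univ.filter fun v => forb (EI B p) π κ u v).card ≤ Fintype.card B * p := by
  classical
  have h1 : (Finset.univ.filter fun v => forb (EI B p) π κ u v) ⊆
      (Finset.univ : Finset (B × ZMod p)).image fun x =>
        (x.2, (π (κ.1, x.1) u).2 - x.2 * (π (κ.1, x.1) u).1) := by
    intro v hv
    obtain ⟨b, hb⟩ := (Finset.mem_filter.1 hv).2
    rw [Finset.mem_image]
    refine ⟨(b, v.1), Finset.mem_univ _, ?_⟩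
    simp only [EI, inc] at hb
    rw [hb]
    ext <;> simp
  refine (Finset.card_le_card h1).trans (Finset.card_image_le.trans (le_of_eq ?_))
  rw [Finset.card_univ, Fintype.card_prod, ZMod.card]

lemma EI_col (π : J × B → Perm (Pt p)) (κ : J × B) (v : Pt p)
    [DecidablePred fun u => forb (EI B p) π κ u v] :
    (Finset.univ.filter fun u => forb (EI B p) π κ u v).card ≤ Fintype.card B * p := by
  classical
  have h1 : (Finset.univ.filter fun u => forb (EI B p) π κ u v) ⊆
      (Finset.univ : Finset (B × ZMod p)).image fun x =>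
        (π (κ.1, x.1)).symm (x.2, v.1 * x.2 + v.2) := by
    intro u hu
    obtain ⟨b, hb⟩ := (Finset.mem_filter.1 hu).2
    rw [Finset.mem_image]
    refine ⟨(b, (π (κ.1, b) u).1), Finset.mem_univ _, ?_⟩
    simp only [EI, inc] at hb
    simp only
    rw [← hb]
    simp
  refine (Finset.card_le_card h1).trans (Finset.card_image_le.trans (le_of_eq ?_))
  rw [Finset.card_univ, Fintype.card_prod, ZMod.card]

omit [DecidableEq B] in
lemma EI_mix (V W : Finset (B × Pt p)) (hVW : ∀ x ∈ V, ∀ y ∈ W, ¬ EI B p x y) :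
    (V.card : ℝ) * W.card ≤ (Fintype.card B : ℝ) ^ 2 * (p : ℝ) ^ 3 := by
  classical
  have h1 : ∀ X : Finset (B × Pt p), (X.card : ℝ) ≤
      Fintype.card B * (X.image Prod.snd).card := by
    intro X
    have h2 : X ⊆ Finset.univ ×ˢ X.image Prod.snd := by
      intro x hx
      rw [Finset.mem_product]
      exact ⟨Finset.mem_univ _, Finset.mem_image_of_mem _ hx⟩
    have h3 := Finset.card_le_card h2
    rw [Finset.card_product, Finset.card_univ] at h3
    exact_mod_cast h3
  have h2 := inc_count (V.image Prod.snd) (W.image Prod.snd) (by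
    intro x hx y hy
    rw [Finset.mem_image] at hx hy
    obtain ⟨x', hx', rfl⟩ := hx
    obtain ⟨y', hy', rfl⟩ := hy
    exact hVW x' hx' y' hy')
  calc (V.card : ℝ) * W.card ≤ (Fintype.card B * (V.image Prod.snd).card) *
        (Fintype.card B * (W.image Prod.snd).card) :=
        mul_le_mul (h1 V) (h1 W) (by positivity) (by positivity)
    _ = (Fintype.card B : ℝ) ^ 2 * ((V.image Prod.snd).card * (W.image Prod.snd).card) := by ring
    _ ≤ _ := mul_le_mul_of_nonneg_left h2 (by positivity)

lemma EI_card [DecidablePred fun x : (B × Pt p) × (B × Pt p) => EI B p x.1 x.2] :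
    (Finset.univ.filter fun x : (B × Pt p) × (B × Pt p) => EI B p x.1 x.2).card ≤
      Fintype.card B ^ 2 * p ^ 3 := by
  classical
  have h1 : (Finset.univ.filter fun x : (B × Pt p) × (B × Pt p) => EI B p x.1 x.2) ⊆
      (Finset.univ : Finset ((B × Pt p) × (B × ZMod p))).image fun x =>
        (x.1, (x.2.1, (x.2.2, x.1.2.2 - x.2.2 * x.1.2.1))) := by
    rintro ⟨x, y⟩ hx
    have h2 := (Finset.mem_filter.1 hx).2
    simp only [EI, inc] at h2
    rw [Finset.mem_image]
    refine ⟨(x, (y.1, y.2.1)), Finset.mem_univ _, ?_⟩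
    simp only [h2]
    ext <;> simp
  refine (Finset.card_le_card h1).trans (Finset.card_image_le.trans (le_of_eq ?_))
  rw [Finset.card_univ]
  simp only [Fintype.card_prod, ZMod.card]
  ring

end Rel

end Pool.Agent.ACC
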