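import Mathlib
import Pool.Agent.Lib_helper21.TS.Numeric
import Pool.Agent.ACC.Core
import Pool.Agent.ACC.Plane

/-!
# No machine with few far accesses: the numerical part
-/

namespace Pool.Agent.ACC

open Finset Equiv Pool.Agent.TS

lemma card_le_exp' {c : ℕ} {x : ℝ} (h : Real.log c ≤ x) : (c : ℝ) ≤ Real.exp x := by
  rcases Nat.eq_zero_or_pos c with h0 | h0
  · rw [h0]; simp only [Nat.cast_zero]; exact (Real.exp_pos _).le
  · have h1 : (0 : ℝ) < c := by exact_mod_cast h0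
    calc (c : ℝ) = Real.exp (Real.log c) := (Real.exp_log h1).symm
      _ ≤ _ := Real.exp_le_exp.2 h

lemma two_pow_le_exp (g : ℕ) : (2 : ℝ) ^ g ≤ Real.exp g := by
  have h1 : (2 : ℝ) ≤ Real.exp 1 := by
    have := Real.add_one_le_exp (1 : ℝ)
    linarith
  calc (2 : ℝ) ^ g ≤ (Real.exp 1) ^ g := pow_le_pow_left₀ (by norm_num) h1 g
    _ = Real.exp g := by rw [← Real.exp_nat_mul]; ring_nf

/-- The number of possible records of a far access. -/
lemma rec_bound {T cA cG g : ℕ} {y : ℝ} (hg : 1 ≤ g) (hy : y ≤ 2 ^ g) (hy1 : 1 ≤ y)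
    (hT : (T : ℝ) ≤ y ^ 2) (hA : Real.log cA ≤ g) (hG : Real.log cG ≤ g) :
    (T * ((T + 1) * (cA * cG)) + 1 : ℝ) ≤ Real.exp (8 * g) := by
  have hgR : (1 : ℝ) ≤ g := by exact_mod_cast hg
  have h1 := card_le_exp' hA
  have h2 := card_le_exp' hG
  have h3 : y ^ 2 ≤ Real.exp (2 * g) := by
    calc y ^ 2 ≤ (2 ^ g) ^ 2 := pow_le_pow_left₀ (by linarith) hy 2
      _ ≤ (Real.exp g) ^ 2 := pow_le_pow_left₀ (by positivity) (two_pow_le_exp g) 2
      _ = Real.exp (2 * g) := by rw [← Real.exp_nat_mul]; norm_num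
  have h4 : (T : ℝ) ≤ Real.exp (2 * g) := hT.trans h3
  have h5 : (1 : ℝ) ≤ Real.exp (2 * g) := Real.one_le_exp (by positivity)
  have h6 : (3 : ℝ) ≤ Real.exp (2 * g) := by
    have := Real.add_one_le_exp (2 * (g : ℝ))
    linarith
  have h7 : (cA : ℝ) * cG ≤ Real.exp (2 * g) := by
    calc (cA : ℝ) * cG ≤ Real.exp g * Real.exp g := by gcongr
      _ = Real.exp (2 * g) := by rw [← Real.exp_add]; ring_nf
  have h8 : (T : ℝ) + 1 ≤ 2 * Real.exp (2 * g) := by linarith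
  calc (T * ((T + 1) * (cA * cG)) + 1 : ℝ)
      ≤ Real.exp (2 * g) * ((2 * Real.exp (2 * g)) * Real.exp (2 * g)) + 1 := by gcongr
    _ ≤ Real.exp (2 * g) * ((2 * Real.exp (2 * g)) * Real.exp (2 * g)) +
        Real.exp (2 * g) * (Real.exp (2 * g) * Real.exp (2 * g)) := by
        have : (1 : ℝ) ≤ Real.exp (2 * g) * (Real.exp (2 * g) * Real.exp (2 * g)) := by
          have h9 : (1 : ℝ) ≤ Real.exp (2 * g) * Real.exp (2 * g) := one_le_mul_of_one_le_of_one_le h5 h5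
          exact one_le_mul_of_one_le_of_one_le h5 h9
        linarith
    _ = 3 * Real.exp (2 * g) ^ 3 := by ring
    _ ≤ Real.exp (2 * g) * Real.exp (2 * g) ^ 3 := by gcongr
    _ = Real.exp (8 * g) := by
        rw [← pow_succ', ← Real.exp_nat_mul]
        congr 1
        push_cast
        ring

lemma logb_le_self' {h : ℝ} (h1 : 0 < h) : Real.logb 2 h ≤ 2 * h := by
  have hl : (1 : ℝ) / 2 < Real.log 2 := by
    have := Real.log_two_gt_d9
    linarith
  rw [Real.logb, div_le_iff₀ (by linarith)]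
  have := Real.log_le_sub_one_of_pos h1
  nlinarith

set_option maxHeartbeats 4000000 in
theorem no_machine (t d p h S g F : ℕ) [Fact p.Prime] (ht : 0 < t) (hh : 1 ≤ h) (hS : 1 ≤ S)
    (hg : 1 ≤ g) (hp : 2 ^ 256 * h ^ 80 ≤ p) (hdp : 2 ^ 13 * h ^ 2 * d ≤ p)
    (hdS : 2 ^ 17 * h ^ 5 * S ≤ d) (hyg : t * d * p ^ 2 ≤ 2 ^ g)
    (hF : 2 ^ 14 * (h : ℝ) ^ 2 * (g * F) ≤ (t * d * p ^ 2) * Real.log p)
    {Q A Γ : Type} [Fintype Q] [Fintype A] [Fintype Γ]
    (M : FM (Fin t) (Fin d) (Pt p) Q A Γ) (T : ℕ)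
    (hT : (T : ℝ) ≤ (t * d * p ^ 2) * Real.logb 2 h)
    (hQ : Real.log (Fintype.card Q) ≤ S) (hA : Real.log (Fintype.card A) ≤ g)
    (hG : Real.log (Fintype.card Γ) ≤ g)
    (hacc : ∀ z : Inp (Fin t) (Fin d) (Pt p),
      (∃ T' ≤ T, ∃ b q w, M.Run T' z q w ∧ M.far b T' q w ≤ F) ↔
        TFree (EI (Fin d) p) z.1 z.2) : False := by
  classical
  have hh' : (1 : ℝ) ≤ h := by exact_mod_cast hh
  have hh0 : (0 : ℝ) < h := by linarith
  have htR : (1 : ℝ) ≤ t := by exact_mod_cast ht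
  have ht0 : (0 : ℝ) < t := by linarith
  have hSR : (1 : ℝ) ≤ S := by exact_mod_cast hS
  have hgR : (1 : ℝ) ≤ g := by exact_mod_cast hg
  have hh2 : (1 : ℝ) ≤ (h : ℝ) ^ 2 := one_le_pow₀ hh'
  have hh5 : (1 : ℝ) ≤ (h : ℝ) ^ 5 := one_le_pow₀ hh'
  have hpR : (2 : ℝ) ^ 256 * h ^ 80 ≤ p := by exact_mod_cast hp
  have hdpR : (2 : ℝ) ^ 13 * h ^ 2 * d ≤ p := by exact_mod_cast hdp
  have hdSR : (2 : ℝ) ^ 17 * h ^ 5 * S ≤ d := by exact_mod_cast hdS
  have hd1 : (1 : ℝ) ≤ d := by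
    refine le_trans ?_ hdSR
    have : (1 : ℝ) ≤ h ^ 5 * S := one_le_mul_of_one_le_of_one_le hh5 hSR
    calc (1 : ℝ) ≤ 2 ^ 17 * (h ^ 5 * S) := by linarith
      _ = _ := by ring
  have hd0 : (0 : ℝ) < d := by linarith
  have hdN : 0 < d := by exact_mod_cast hd0
  have hp2 : (2 : ℝ) ^ 256 ≤ p := by
    refine le_trans ?_ hpR
    have : (1 : ℝ) ≤ (h : ℝ) ^ 80 := one_le_pow₀ hh'
    exact le_mul_of_one_le_right (by positivity) this
  have hp0 : (0 : ℝ) < p := lt_of_lt_of_le (by positivity) hp2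
  have hp1 : (1 : ℝ) ≤ p := le_trans (by norm_num) hp2
  have hcU : Fintype.card (Pt p) = p ^ 2 := by
    rw [Fintype.card_prod, ZMod.card, sq]
  -- the logarithm of p
  obtain ⟨lp, hlp⟩ : ∃ lp : ℝ, lp = Real.log p := ⟨_, rfl⟩
  have hlogh : 0 ≤ Real.log h := Real.log_nonneg hh'
  have hl2 : (0.69 : ℝ) ≤ Real.log 2 := by
    have := Real.log_two_gt_d9
    linarith
  have hl2' : Real.log 2 ≤ 0.7 := by
    have := Real.log_two_lt_d9
    linarith
  have hlpge : 256 * Real.log 2 + 80 * Real.log h ≤ lp := by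
    rw [hlp]
    have h1 := Real.log_le_log (by positivity) hpR
    rw [Real.log_mul (by positivity) (by positivity), Real.log_pow, Real.log_pow] at h1
    push_cast at h1
    linarith
  have hlp1 : 1 ≤ lp := by linarith
  have hlp0 : 0 < lp := by linarith
  -- the number y of entries
  obtain ⟨y, hy⟩ : ∃ y : ℝ, y = t * d * p ^ 2 := ⟨_, rfl⟩
  have hy0 : 0 < y := by rw [hy]; positivity
  rw [← hy] at hT hF
  have hdy : (d : ℝ) * p ^ 2 ≤ y := by
    rw [hy]
    calc (d : ℝ) * p ^ 2 = 1 * ((d : ℝ) * p ^ 2) := by ring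
      _ ≤ (t : ℝ) * ((d : ℝ) * p ^ 2) := mul_le_mul_of_nonneg_right htR (by positivity)
      _ = (t : ℝ) * d * p ^ 2 := by ring
  have hpy2 : (p : ℝ) ^ 2 ≤ y := by
    refine le_trans ?_ hdy
    exact le_mul_of_one_le_left (by positivity) hd1
  have hpp : (p : ℝ) ≤ p ^ 2 := le_self_pow₀ hp1 (by norm_num)
  have hpy : (p : ℝ) ≤ y := hpp.trans hpy2
  have hdley : (d : ℝ) ≤ y := by
    refine le_trans ?_ hdy
    exact le_mul_of_one_le_right hd0.le (one_le_pow₀ hp1)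
  have hhp : (h : ℝ) ≤ p := by
    refine le_trans ?_ hpR
    have h1 : (h : ℝ) ≤ h ^ 80 := le_self_pow₀ hh' (by norm_num)
    exact h1.trans (le_mul_of_one_le_left (by positivity) (by norm_num))
  have hhy : (h : ℝ) ≤ y := hhp.trans hpy
  have hy1 : 1 ≤ y := hp1.trans hpy
  have hyg' : y ≤ 2 ^ g := by rw [hy]; exact_mod_cast hyg
  have h16 : (0 : ℝ) < 16 * (h : ℝ) ^ 2 := by positivity
  -- the budget
  obtain ⟨bu, hbu⟩ : ∃ bu : ℝ, bu = y * lp / (2048 * h ^ 2) := ⟨_, rfl⟩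
  -- time
  have hT2 : (T : ℝ) ≤ 2 * (h * y) := by
    refine hT.trans ?_
    have := mul_le_mul_of_nonneg_left (logb_le_self' hh0) hy0.le
    linarith
  -- the segments
  obtain ⟨L, hL⟩ : ∃ L : ℕ, L = 2 ^ 14 * h ^ 3 * S := ⟨_, rfl⟩
  have hL0 : 0 < L := by rw [hL]; positivity
  have hLR : (L : ℝ) = 2 ^ 14 * h ^ 3 * S := by rw [hL]; push_cast; ring
  have hLR0 : (0 : ℝ) < L := by exact_mod_cast hL0
  have hLd : 8 * (h : ℝ) ^ 2 * L ≤ d := by
    refine le_trans (le_of_eq ?_) hdSR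
    rw [hLR]; ring
  have hLley : (L : ℝ) ≤ h * y := by
    have h1 : (L : ℝ) ≤ 8 * (h : ℝ) ^ 2 * L := by
      have : (1 : ℝ) ≤ 8 * (h : ℝ) ^ 2 := by linarith
      exact le_mul_of_one_le_left hLR0.le this
    have h2 : y ≤ h * y := le_mul_of_one_le_left hy0.le hh'
    linarith
  obtain ⟨r, hr⟩ : ∃ r : ℕ, r = T / L + 1 := ⟨_, rfl⟩
  have hTr : T ≤ r * L := by
    rw [hr, add_mul, one_mul]
    have := Nat.lt_div_mul_add (a := T) hL0
    omega
  have hrL : (r : ℝ) * L ≤ 3 * (h * y) := by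
    have h1 : r * L ≤ T + L := by
      rw [hr, add_mul, one_mul]
      have := Nat.div_mul_le_self T L
      omega
    have h2 : (r : ℝ) * L ≤ T + L := by exact_mod_cast h1
    linarith
  -- parameters
  set β : ℝ := 1 / Real.sqrt (Real.sqrt p) with hβ
  have hsp : 0 < Real.sqrt p := Real.sqrt_pos.2 hp0
  have hssp : 0 < Real.sqrt (Real.sqrt p) := Real.sqrt_pos.2 hsp
  have hβ0 : 0 < β := by positivity
  have hβ2 : β ^ 2 = 1 / Real.sqrt p := by
    rw [hβ, div_pow, one_pow, Real.sq_sqrt hsp.le]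
  have hβ4 : (β ^ 2) ^ 2 = 1 / p := by
    rw [hβ2, div_pow, one_pow, Real.sq_sqrt hp0.le]
  have hlogβ : Real.log β = -(lp / 4) := by
    rw [hβ, one_div, Real.log_inv, Real.log_sqrt hsp.le, Real.log_sqrt hp0.le, ← hlp]
    ring
  set A0 : ℝ := 64 * h ^ 2 * β with hA0
  have hA00 : 0 < A0 := by positivity
  have hlogA0 : Real.log A0 = 6 * Real.log 2 + 2 * Real.log h - lp / 4 := by
    rw [hA0, Real.log_mul (by positivity) hβ0.ne', Real.log_mul (by norm_num) (by positivity),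
      hlogβ, show (64 : ℝ) = 2 ^ 6 by norm_num, Real.log_pow, Real.log_pow]
    push_cast
    ring
  have hA01 : A0 ≤ 1 := by
    by_contra hcon
    push Not at hcon
    have := Real.log_pos hcon
    linarith
  have hlog16 : Real.log (16 * (h : ℝ) ^ 2) = 4 * Real.log 2 + 2 * Real.log h := by
    rw [Real.log_mul (by norm_num) (by positivity), show (16 : ℝ) = 2 ^ 4 by norm_num,
      Real.log_pow, Real.log_pow]
    push_cast
    ring
  have cI : Fintype.card (Fin t × Pt p) = t * p ^ 2 := by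
    rw [Fintype.card_prod, Fintype.card_fin, hcU]
  have cK : Fintype.card (Fin t × Fin d) = t * d := by simp
  have cE : Fintype.card ((Fin t × Pt p) × Fin d) = t * p ^ 2 * d := by
    rw [Fintype.card_prod, cI, Fintype.card_fin]
  obtain ⟨n', hn'⟩ : ∃ n', n' = ⌈(Fintype.card (Fin t × Pt p) : ℝ) / (4 * h)⌉₊ := ⟨_, rfl⟩
  obtain ⟨d', hd'⟩ : ∃ d', d' = ⌈(Fintype.card (Fin d) : ℝ) / (4 * h)⌉₊ := ⟨_, rfl⟩
  have hn'ge : ((t : ℝ) * p ^ 2) / (4 * h) ≤ n' := by
    have := Nat.le_ceil ((Fintype.card (Fin t × Pt p) : ℝ) / (4 * h))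
    rw [← hn', cI] at this
    push_cast at this
    exact this
  have hd'ge : (d : ℝ) / (4 * h) ≤ d' := by
    have := Nat.le_ceil ((Fintype.card (Fin d) : ℝ) / (4 * h))
    rw [← hd', Fintype.card_fin] at this
    exact this
  obtain ⟨mm, hmdef⟩ : ∃ mm : ℝ, mm = ((n' * d' : ℕ) : ℝ) := ⟨_, rfl⟩
  have hmm : y ≤ (16 * h ^ 2) * mm := by
    have h1 : ((t : ℝ) * p ^ 2) / (4 * h) * ((d : ℝ) / (4 * h)) ≤ (n' : ℝ) * d' :=
      mul_le_mul hn'ge hd'ge (by positivity) (by positivity)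
    have h2 : ((t : ℝ) * p ^ 2) / (4 * h) * ((d : ℝ) / (4 * h)) = y / (16 * h ^ 2) := by
      rw [hy]; field_simp; ring
    rw [h2, div_le_iff₀ h16] at h1
    rw [hmdef]
    push_cast
    linarith
  have hm' : (n' : ℝ) * d' = mm := by rw [hmdef]; push_cast; ring
  have hmm0 : 0 < mm := by
    by_contra hcon
    push Not at hcon
    have h1 : (16 * (h : ℝ) ^ 2) * mm ≤ 0 := mul_nonpos_of_nonneg_of_nonpos h16.le hcon
    linarith
  have htot : (T : ℝ) ≤ Fintype.card (Fin t × Pt p) * Fintype.card (Fin d) *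
      Real.logb 2 h := by
    rw [cI, Fintype.card_fin]
    push_cast
    calc (T : ℝ) ≤ _ := hT
      _ = _ := by rw [hy]; ring
  have hpair : (r * L ^ 2 : ℝ) ≤ Fintype.card (Fin t × Pt p) *
      (Fintype.card (Fin d)) ^ 2 / (2 * h) := by
    rw [cI, Fintype.card_fin]
    push_cast
    rw [le_div_iff₀ (by positivity)]
    calc (r : ℝ) * L ^ 2 * (2 * h) = (r * L) * (2 * h * L) := by ring
      _ ≤ (3 * (h * y)) * (2 * h * L) := mul_le_mul_of_nonneg_right hrL (by positivity)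
      _ = y * (6 * h ^ 2 * L) := by ring
      _ ≤ y * (8 * h ^ 2 * L) := by gcongr; norm_num
      _ ≤ y * d := mul_le_mul_of_nonneg_left hLd hy0.le
      _ = (t : ℝ) * p ^ 2 * d ^ 2 := by rw [hy]; ring
  have hbig : 2 * β * (Fintype.card (Fin t) * Fintype.card (Pt p) *
      Fintype.card (Fin d)) ≤ (n' * d' : ℝ) / 2 * A0 := by
    rw [Fintype.card_fin, Fintype.card_fin, hcU, hm', hA0]
    push_cast
    calc 2 * β * ((t : ℝ) * p ^ 2 * d) = 2 * β * y := by rw [hy]; ring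
      _ ≤ 2 * β * ((16 * h ^ 2) * mm) := mul_le_mul_of_nonneg_left hmm (by positivity)
      _ = _ := by ring
  have h2D : 2 * (Fintype.card (Fin d) * p) ≤ Fintype.card (Pt p) := by
    rw [Fintype.card_fin, hcU, sq, ← mul_assoc]
    apply Nat.mul_le_mul_right
    refine le_trans ?_ hdp
    have h1 : 1 ≤ h ^ 2 := Nat.one_le_pow _ _ hh
    calc 2 * d = 2 * 1 * d := by ring
      _ ≤ 2 ^ 13 * h ^ 2 * d := by gcongr; norm_num
  have key := machine_ineq (Q := Q) (EI (Fin d) p) β hβ0 (by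
      intro V W hVW
      refine (EI_mix V W hVW).trans (le_of_eq ?_)
      rw [mul_pow, hβ4, hcU, Fintype.card_fin]
      push_cast
      field_simp) (Fintype.card (Fin d) * p) (fun π κ u _ => EI_row π κ u)
    (fun π κ v _ => EI_col π κ v) h2D
    (by rw [hcU]; exact Nat.pos_of_ne_zero (by
      have : (p ^ 2 : ℕ) ≠ 0 := by
        have : 0 < p := by exact_mod_cast hp0
        positivity
      exact this)) (by rw [Fintype.card_fin]; exact hdN) M T L r F hL0 hTr h hh' htot hpair n' d'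
    hn' hd' A0 hA00 hA01 hbig hacc
  rw [cE, cK, hcU, Fintype.card_fin, hm'] at key
  have hbu0 : 0 < bu := by rw [hbu]; positivity
  -- bounds of the factors
  have e1 : ((p ^ 2 : ℕ) : ℝ) ^ (2 * (d * p) * (t * d)) ≤ Real.exp bu := by
    have h1 : ((p ^ 2 : ℕ) : ℝ) ^ (2 * (d * p) * (t * d)) =
        Real.exp (((2 * (d * p) * (t * d) : ℕ) : ℝ) * (2 * lp)) := by
      rw [Real.exp_nat_mul, hlp]
      congr 1
      rw [two_mul, Real.exp_add, Real.exp_log hp0]
      push_cast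
      ring
    rw [h1]
    apply Real.exp_le_exp.2
    rw [hbu]
    push_cast
    rw [le_div_iff₀ (by positivity)]
    calc 2 * ((d : ℝ) * p) * (t * d) * (2 * lp) * (2048 * h ^ 2)
        = ((t : ℝ) * d * p) * lp * (2 ^ 13 * (h : ℝ) ^ 2 * d) := by ring
      _ ≤ ((t : ℝ) * d * p) * lp * p := by gcongr
      _ = y * lp := by rw [hy]; ring
  have e2 : (2 * ((T : ℝ) + 1)) ≤ Real.exp bu := by
    have h1 : 2 * ((T : ℝ) + 1) ≤ 6 * (h * y) := by
      have h2 : 1 ≤ h * y := one_le_mul_of_one_le_of_one_le hh' hy1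
      linarith
    have h2 : 6 * (h * y) ≤ y ^ 2 := by
      have h3 : 6 * (h : ℝ) ≤ y := by
        refine le_trans ?_ hpy
        refine le_trans ?_ hpR
        have h4 : (h : ℝ) ≤ h ^ 80 := le_self_pow₀ hh' (by norm_num)
        calc 6 * (h : ℝ) ≤ 2 ^ 256 * h := by
              apply mul_le_mul_of_nonneg_right (by norm_num) hh0.le
          _ ≤ 2 ^ 256 * h ^ 80 := mul_le_mul_of_nonneg_left h4 (by positivity)
      calc 6 * (h * y) = (6 * h) * y := by ring
        _ ≤ y * y := mul_le_mul_of_nonneg_right h3 hy0.le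
        _ = y ^ 2 := by ring
    have h3 : y ^ 2 = Real.exp (2 * Real.log y) := by
      rw [mul_comm, ← Real.rpow_def_of_pos hy0]
      norm_cast
    refine (h1.trans h2).trans ?_
    rw [h3]
    apply Real.exp_le_exp.2
    rw [hbu, le_div_iff₀ (by positivity)]
    have h4 := log_le_two_sqrt y hy0
    have h5 : Real.sqrt y * Real.sqrt y = y := Real.mul_self_sqrt hy0.le
    have h6 : 2 ^ 13 * (h : ℝ) ^ 2 ≤ Real.sqrt y := by
      apply Real.le_sqrt_of_sq_le
      refine le_trans ?_ hpy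
      refine le_trans ?_ hpR
      have h7 : (h : ℝ) ^ 4 ≤ h ^ 80 := pow_le_pow_right₀ hh' (by norm_num)
      calc (2 ^ 13 * (h : ℝ) ^ 2) ^ 2 = 2 ^ 26 * (h : ℝ) ^ 4 := by ring
        _ ≤ 2 ^ 256 * (h : ℝ) ^ 4 := by
            apply mul_le_mul_of_nonneg_right (by norm_num) (by positivity)
        _ ≤ 2 ^ 256 * (h : ℝ) ^ 80 := mul_le_mul_of_nonneg_left h7 (by positivity)
    calc 2 * Real.log y * (2048 * h ^ 2) ≤ 2 * (2 * Real.sqrt y) * (2048 * h ^ 2) := by gcongr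
      _ = Real.sqrt y * (2 ^ 13 * h ^ 2) := by ring
      _ ≤ Real.sqrt y * Real.sqrt y := by gcongr
      _ = y * 1 := by rw [h5, mul_one]
      _ ≤ y * lp := mul_le_mul_of_nonneg_left hlp1 hy0.le
  have e3 : (Fintype.card Q : ℝ) ^ r * 2 ^ r ≤ Real.exp bu := by
    have h1 := card_le_exp' hQ
    have h2 : (2 : ℝ) ≤ Real.exp S := by
      have := Real.add_one_le_exp (S : ℝ)
      linarith
    calc (Fintype.card Q : ℝ) ^ r * 2 ^ r ≤ (Real.exp S) ^ r * (Real.exp S) ^ r := by gcongr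
      _ = Real.exp (2 * (r * S)) := by
          rw [← Real.exp_nat_mul, ← Real.exp_add]; ring_nf
      _ ≤ Real.exp bu := by
          apply Real.exp_le_exp.2
          rw [hbu, le_div_iff₀ (by positivity)]
          have h3 : (r : ℝ) * (2 ^ 14 * h ^ 3 * S) ≤ 3 * (h * y) := by rw [← hLR]; exact hrL
          have h4 : (h : ℝ) * (r * S * (2 ^ 14 * h ^ 2)) ≤ h * (3 * y) := by
            calc _ = (r : ℝ) * (2 ^ 14 * h ^ 3 * S) := by ring
              _ ≤ _ := h3
              _ = _ := by ring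
          have h5 : r * S * (2 ^ 14 * (h : ℝ) ^ 2) ≤ 3 * y := le_of_mul_le_mul_left h4 hh0
          calc 2 * ((r : ℝ) * S) * (2048 * h ^ 2) = (r * S * (2 ^ 14 * (h : ℝ) ^ 2)) / 4 := by ring
            _ ≤ 3 * y / 4 := by linarith
            _ ≤ y * 1 := by linarith
            _ ≤ y * lp := mul_le_mul_of_nonneg_left hlp1 hy0.le
  have e4 : (T * ((T + 1) * (Fintype.card A * Fintype.card Γ)) + 1 : ℝ) ^ F ≤ Real.exp bu := by
    have hTy : (T : ℝ) ≤ y ^ 2 := by
      have h3 : 2 * (h : ℝ) ≤ y := by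
        refine le_trans ?_ hpy
        refine le_trans ?_ hpR
        have h4 : (h : ℝ) ≤ h ^ 80 := le_self_pow₀ hh' (by norm_num)
        calc 2 * (h : ℝ) ≤ 2 ^ 256 * h := by
              apply mul_le_mul_of_nonneg_right (by norm_num) hh0.le
          _ ≤ 2 ^ 256 * h ^ 80 := mul_le_mul_of_nonneg_left h4 (by positivity)
      calc (T : ℝ) ≤ 2 * (h * y) := hT2
        _ = (2 * h) * y := by ring
        _ ≤ y * y := mul_le_mul_of_nonneg_right h3 hy0.le
        _ = y ^ 2 := by ring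
    have h1 := rec_bound hg hyg' hy1 hTy hA hG
    calc (T * ((T + 1) * (Fintype.card A * Fintype.card Γ)) + 1 : ℝ) ^ F
        ≤ Real.exp (8 * g) ^ F := pow_le_pow_left₀ (by positivity) h1 F
      _ = Real.exp (F * (8 * g)) := by rw [← Real.exp_nat_mul]
      _ ≤ Real.exp bu := by
          apply Real.exp_le_exp.2
          rw [hbu, le_div_iff₀ (by positivity)]
          calc (F : ℝ) * (8 * g) * (2048 * h ^ 2) = 2 ^ 14 * (h : ℝ) ^ 2 * (g * F) := by ring
            _ ≤ y * Real.log p := hF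
            _ = y * lp := by rw [hlp]
  have e5 : ((t * p ^ 2 * d).choose (n' * d') : ℝ) ^ 2 ≤
      Real.exp (2 * (mm + mm * Real.log (16 * h ^ 2))) := by
    have h1 := choose_le_exp (t * p ^ 2 * d) (n' * d') (16 * h ^ 2) h16
      (by rw [← hmdef]; push_cast; refine le_trans (le_of_eq ?_) hmm; rw [hy]; ring)
    rw [← hmdef] at h1
    have h2 : Real.exp (2 * (mm + mm * Real.log (16 * h ^ 2))) =
        (Real.exp (mm + mm * Real.log (16 * h ^ 2))) ^ 2 := by
      rw [← Real.exp_nat_mul]; norm_num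
    rw [h2]
    exact pow_le_pow_left₀ (by positivity) h1 2
  have hprod : ((p ^ 2 : ℕ) : ℝ) ^ (2 * (d * p) * (t * d)) * ((2 * ((T : ℝ) + 1)) *
      ((Fintype.card Q : ℝ) ^ r * 2 ^ r * ((t * p ^ 2 * d).choose (n' * d') : ℝ) ^ 2 *
      ((T * ((T + 1) * (Fintype.card A * Fintype.card Γ)) + 1 : ℝ) ^ F) *
      Real.exp (mm + mm / 2 * Real.log A0))) ≤
      Real.exp bu * (Real.exp bu * (Real.exp bu *
        Real.exp (2 * (mm + mm * Real.log (16 * h ^ 2))) * Real.exp bu *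
          Real.exp (mm + mm / 2 * Real.log A0))) := by
    gcongr
  have hfin := key.trans hprod
  rw [← Real.exp_add, ← Real.exp_add, ← Real.exp_add, ← Real.exp_add, ← Real.exp_add,
    Real.one_le_exp_iff] at hfin
  have hexp : bu + (bu + (bu + 2 * (mm + mm * Real.log (16 * h ^ 2)) + bu +
      (mm + mm / 2 * Real.log A0))) =
      4 * bu + mm * (3 + 11 * Real.log 2 + 5 * Real.log h - lp / 8) := by
    rw [hlog16, hlogA0]; ring
  rw [hexp] at hfin
  have h1 : 3 + 11 * Real.log 2 + 5 * Real.log h - lp / 8 ≤ -(lp / 16) := by linarith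
  have h2 := mul_le_mul_of_nonneg_left h1 hmm0.le
  have h3 : 4 * bu ≤ mm * (lp / 32) := by
    rw [hbu]
    have h4 : y * lp / (2048 * h ^ 2) ≤ (16 * h ^ 2) * mm * lp / (2048 * h ^ 2) := by
      gcongr
    have h5 : (16 * (h : ℝ) ^ 2) * mm * lp / (2048 * h ^ 2) = mm * lp / 128 := by
      field_simp; norm_num
    rw [h5] at h4
    linarith
  have h4 : 0 < mm * lp := by positivity
  linarith

end Pool.Agent.ACC
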