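import Mathlib
import Pool.Agent.Lib_helper21.TS.Final
import Pool.Agent.ACC.Num

/-!
# From machines on graphs to machines on inputs
-/

namespace Pool.Agent.ACC

open Finset Equiv Pool.Agent.TS

section Conv

variable {J B U : Type} {t d w pad : ℕ} (eJ : J ≃ Fin t) (eB : B ≃ Fin d) (eU : U ≃ Fin w)

/-- The machine on inputs induced by a machine on graphs. -/
def toFM {Q A Γ : Type} (E : B × U → B × U → Prop)
    (M : Machine (t * w + (d * w + (d * w + pad))) Q A Γ) : FM J B U Q A Γ where
  start x := x ∈ M.start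
  init := M.init
  rd := M.rd
  acc x := x ∈ M.acc
  ask i q γ := tr eJ eB eU pad (M.ask i q γ)
  step i q γ a q' v := ∃ z : Inp J B U, (tr eJ eB eU pad (M.ask i q γ)).map (ans z) = a ∧
    (q', v) ∈ M.next i q γ (answer (theGraph eJ eB eU pad E z) (M.ask i q γ))

lemma accepts_iff {Q A Γ : Type} (E : B × U → B × U → Prop)
    (M : Machine (t * w + (d * w + (d * w + pad))) Q A Γ) (T F : ℕ) (z : Inp J B U) :
    M.Accepts T F (theGraph eJ eB eU pad E z) ↔
      ∃ T' ≤ T, ∃ b q v, (toFM eJ eB eU E M).Run T' z q v ∧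
        (toFM eJ eB eU E M).far b T' q v ≤ F := by
  unfold Machine.Accepts
  constructor
  · rintro ⟨n, q, c, v, hn, ⟨h1, h2, h3⟩, h4, h5⟩
    have hc : ∀ i ≤ n, c i = memo M.init v i := by
      intro i
      induction i with
      | zero => intro _; exact h2
      | succ i ih =>
        intro hi
        rw [(h3 i (by omega)).2, ih (by omega), memo]
    have hrun : (toFM eJ eB eU E M).Run n z q v := by
      refine ⟨h1, fun i hi => ?_, h4⟩
      refine ⟨z, rfl, ?_⟩
      have h6 := (h3 i hi).1
      rw [hc i hi.le] at h6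
      exact h6
    rcases h5 with h5 | h5
    · exact ⟨n, hn, false, q, v, hrun, by simpa [FM.far, FM.reads, Machine.reads, toFM] using h5⟩
    · exact ⟨n, hn, true, q, v, hrun, by simpa [FM.far] using h5⟩
  · rintro ⟨n, hn, b, q, v, hR, h5⟩
    refine ⟨n, q, memo M.init v, v, hn, ⟨hR.1, rfl, fun i hi => ⟨?_, rfl⟩⟩, hR.2.2, ?_⟩
    · obtain ⟨z', h1, h2⟩ := hR.2.1 i hi
      have h3 := answer_eq eJ eB eU E z z' (M.ask i (q i) ((M.rd i (q i)).map (memo M.init v i)))
        h1.symm
      rw [h3]
      exact h2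
    · cases b with
      | true => exact Or.inr (by simpa [FM.far] using h5)
      | false => exact Or.inl (by simpa [FM.far, FM.reads, Machine.reads, toFM] using h5)

end Conv

end Pool.Agent.ACC
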