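import Mathlib
import Pool.Agent.ACC.Conv

/-!
# The lower bound for machines with a near and a far memory
-/

namespace Pool.Agent.ACC

open Finset Equiv Pool.Agent.TS

/-- The lower bound for given parameters. -/
theorem bound_params (t d p : ℕ) [Fact p.Prime] (ht : 0 < t) (hd : 0 < d) (hdt : d * p ≤ t)
    (s : ℕ) (hs : 6 * (t * d * p ^ 2) ≤ s) :
    ∃ (n : ℕ) (δ : Fin n → ℕ), 2 * n + ∑ v, δ v = 2 * s ∧
      ∀ (h S g F : ℕ), 1 ≤ h → 1 ≤ S → 1 ≤ g → 2 ^ 256 * h ^ 80 ≤ p → 2 ^ 13 * h ^ 2 * d ≤ p →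
        2 ^ 17 * h ^ 5 * S ≤ d → t * d * p ^ 2 ≤ 2 ^ g →
        2 ^ 14 * (h : ℝ) ^ 2 * (g * F) ≤ (t * d * p ^ 2) * Real.log p →
      ∀ (Q A Γ : Type) [Fintype Q] [Fintype A] [Fintype Γ] (M : Machine n Q A Γ) (T : ℕ),
        Real.log (Fintype.card Q) ≤ S → Real.log (Fintype.card A) ≤ g →
        Real.log (Fintype.card Γ) ≤ g →
        (∀ G : SimpleGraph (Fin n), (∀ v, (adjList G v).length = δ v) →
          (M.Accepts T F G ↔ G.CliqueFree 3)) →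
        (t * d * p ^ 2 : ℝ) * Real.logb 2 h < T := by
  classical
  have hp0 : 0 < p := (Fact.out : p.Prime).pos
  have hcU : Fintype.card (Pt p) = p ^ 2 := by rw [Fintype.card_prod, ZMod.card, sq]
  obtain ⟨eU⟩ : Nonempty (Pt p ≃ Fin (p ^ 2)) := ⟨Fintype.equivFinOfCardEq hcU⟩
  have : DecidableRel (EI (Fin d) p) := Classical.decRel _
  set w := p ^ 2 with hw
  have hw0 : 0 < w := by rw [hw]; positivity
  set cE := (Finset.univ.filter fun x : (Fin d × Pt p) × (Fin d × Pt p) =>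
    EI (Fin d) p x.1 x.2).card with hcE
  have hcEle : cE ≤ t * d * w := by
    have h1 := EI_card (B := Fin d) (p := p)
    rw [Fintype.card_fin] at h1
    calc cE ≤ d ^ 2 * p ^ 3 := h1
      _ = (d * p) * (d * p ^ 2) := by ring
      _ ≤ t * (d * p ^ 2) := Nat.mul_le_mul_right _ hdt
      _ = t * d * w := by rw [hw]; ring
  set base := t * w + 2 * (d * w) + 2 * (t * d * w) + cE with hbase
  have hbase_le : base ≤ s := by
    refine le_trans ?_ hs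
    have e1 : t * w ≤ t * d * w := by
      rw [mul_assoc]
      exact Nat.mul_le_mul_left _ (Nat.le_mul_of_pos_left _ hd)
    have e2 : d * w ≤ t * d * w := by
      rw [mul_assoc]
      exact Nat.le_mul_of_pos_left _ ht
    omega
  set pad := s - base with hpad
  refine ⟨t * w + (d * w + (d * w + pad)),
    fun v => dg (Equiv.refl (Fin t)) (Equiv.refl (Fin d)) eU pad (EI (Fin d) p)
      ((enc (Equiv.refl (Fin t)) (Equiv.refl (Fin d)) eU pad).symm v), ?_, ?_⟩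
  · rw [(enc (Equiv.refl (Fin t)) (Equiv.refl (Fin d)) eU pad).symm.sum_comp
      (fun x => dg (Equiv.refl (Fin t)) (Equiv.refl (Fin d)) eU pad (EI (Fin d) p) x),
      sum_dg, Fintype.card_fin, Fintype.card_fin, hcU, ← hcE]
    omega
  · intro h S g F hh hS hg h1 h2 h3 h4 h5 Q A Γ _ _ _ M T hQ hA hG hM
    by_contra hT
    push Not at hT
    apply no_machine t d p h S g F ht hh hS hg h1 h2 h3 h4 h5
      (toFM (Equiv.refl (Fin t)) (Equiv.refl (Fin d)) eU (EI (Fin d) p) M) T hT hQ hA hG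
    intro z
    rw [← accepts_iff, hM, cliqueFree_iff]
    intro v
    obtain ⟨x, rfl⟩ := (enc (Equiv.refl (Fin t)) (Equiv.refl (Fin d)) eU pad).surjective v
    rw [adjList_graph, length_lst]
    simp

lemma exists_root (e x : ℕ) (he0 : e ≠ 0) (hx : 1 ≤ x) :
    ∃ h : ℕ, 1 ≤ h ∧ (h : ℝ) ^ e ≤ x ∧ (x : ℝ) + 1 ≤ ((h : ℝ) + 1) ^ e := by
  obtain ⟨g, hg⟩ : ∃ g, g = Nat.findGreatest (fun k => k ^ e ≤ x) x := ⟨_, rfl⟩
  have h1 : 1 ≤ g := by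
    rw [hg]
    exact Nat.le_findGreatest hx (by simpa using hx)
  have h2 : g ^ e ≤ x := by
    rw [hg]
    exact Nat.findGreatest_spec (P := fun k => k ^ e ≤ x) (m := 1) hx (by simpa using hx)
  have h4 : x < (g + 1) ^ e := by
    by_contra hcon
    push Not at hcon
    have h3 : g + 1 ≤ x := (Nat.le_self_pow he0 _).trans hcon
    exact Nat.findGreatest_is_greatest (P := fun k => k ^ e ≤ x)
      (by rw [← hg]; exact Nat.lt_succ_self _) h3 hcon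
  refine ⟨g, h1, by exact_mod_cast h2, ?_⟩
  have h5 : x + 1 ≤ (g + 1) ^ e := h4
  exact_mod_cast h5

/-- The parameters attached to the size `s`. -/
lemma exists_params (K s : ℕ) (hK : 7 ≤ K) (hs : (K : ℝ) ^ 30 ≤ s) :
    ∃ k p t : ℕ, K ≤ k ∧ (k : ℝ) ^ 30 ≤ s ∧ (s : ℝ) ≤ (2 * (k : ℝ)) ^ 30 ∧ p.Prime ∧ k ^ 6 < p ∧
      0 < t ∧ k ^ 5 * p ≤ t ∧ 6 * (t * k ^ 5 * p ^ 2) ≤ s ∧ s ≤ 12 * (t * k ^ 5 * p ^ 2) := by
  have hK1 : (1 : ℝ) ≤ K := by exact_mod_cast (by omega : 1 ≤ K)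
  have hs1 : 1 ≤ s := by
    have : (1 : ℝ) ≤ s := (one_le_pow₀ hK1).trans hs
    exact_mod_cast this
  obtain ⟨k, hk1, hk2, hk3⟩ := exists_root 30 s (by norm_num) hs1
  have hkR : (1 : ℝ) ≤ k := by exact_mod_cast hk1
  have hk : K ≤ k := by
    by_contra hcon
    push Not at hcon
    have h0 : (k : ℝ) + 1 ≤ K := by exact_mod_cast hcon
    have h1 : ((k : ℝ) + 1) ^ 30 ≤ (K : ℝ) ^ 30 := pow_le_pow_left₀ (by linarith) h0 30
    linarith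
  have hs2 : (s : ℝ) ≤ (2 * (k : ℝ)) ^ 30 := by
    have h1 : ((k : ℝ) + 1) ^ 30 ≤ (2 * (k : ℝ)) ^ 30 :=
      pow_le_pow_left₀ (by linarith) (by linarith) 30
    linarith
  clear hk3 hs
  have hk0 : 0 < k := hk1
  obtain ⟨p, hp, hp1, hp2⟩ := Nat.exists_prime_lt_and_le_two_mul (k ^ 6) (by positivity)
  have hp0 : 0 < p := hp.pos
  have hpR0 : (0 : ℝ) < p := by exact_mod_cast hp0
  have hp2R : (p : ℝ) ≤ 2 * (k : ℝ) ^ 6 := by exact_mod_cast hp2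
  obtain ⟨D, hD⟩ : ∃ D, D = 6 * (k ^ 5 * p ^ 2) := ⟨_, rfl⟩
  have hD0 : 0 < D := by rw [hD]; positivity
  have hbig : (k ^ 5 * p) * D ≤ s := by
    have h1 : (((k ^ 5 * p) * D : ℕ) : ℝ) ≤ s := by
      refine le_trans ?_ hk2
      rw [hD]
      push_cast
      calc ((k : ℝ) ^ 5 * p) * (6 * ((k : ℝ) ^ 5 * (p : ℝ) ^ 2)) = 6 * (k : ℝ) ^ 10 * (p : ℝ) ^ 3 := by
            ring
        _ ≤ 6 * (k : ℝ) ^ 10 * (2 * (k : ℝ) ^ 6) ^ 3 := by gcongr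
        _ = 48 * (k : ℝ) ^ 28 := by ring
        _ ≤ (k : ℝ) ^ 2 * (k : ℝ) ^ 28 := by
            apply mul_le_mul_of_nonneg_right _ (by positivity)
            have h7 : (7 : ℝ) ≤ k := by exact_mod_cast hK.trans hk
            nlinarith
        _ = (k : ℝ) ^ 30 := by ring
    exact_mod_cast h1
  obtain ⟨t, ht⟩ : ∃ t, t = s / D := ⟨_, rfl⟩
  have ht1 : k ^ 5 * p ≤ t := by
    rw [ht, Nat.le_div_iff_mul_le hD0]
    exact hbig
  have ht0 : 0 < t := by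
    refine lt_of_lt_of_le ?_ ht1
    exact Nat.mul_pos (Nat.pow_pos hk0) hp0
  have h1 := Nat.div_mul_le_self s D
  have h2 := Nat.lt_div_mul_add (a := s) hD0
  rw [← ht] at h1 h2
  have h3 : D ≤ t * D := Nat.le_mul_of_pos_left _ ht0
  refine ⟨k, p, t, hk, hk2, hs2, hp, hp1, ht0, ht1, ?_, ?_⟩
  · calc 6 * (t * k ^ 5 * p ^ 2) = t * D := by rw [hD]; ring
      _ ≤ s := h1
  · calc s ≤ t * D + D := h2.le
      _ ≤ t * D + t * D := Nat.add_le_add_left h3 _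
      _ = 12 * (t * k ^ 5 * p ^ 2) := by rw [hD]; ring

lemma root_bounds (s k : ℕ) (hk : 1 ≤ k) (h1 : (k : ℝ) ^ 30 ≤ s) (h2 : (s : ℝ) ≤ (2 * (k : ℝ)) ^ 30) :
    (k : ℝ) ^ 5 ≤ (s : ℝ) ^ (1 / 6 : ℝ) ∧ (s : ℝ) ^ (1 / 6 : ℝ) ≤ 32 * (k : ℝ) ^ 5 := by
  have hkR : (1 : ℝ) ≤ k := by exact_mod_cast hk
  have e1 : (k : ℝ) ^ 5 = (((k : ℝ) ^ 30) : ℝ) ^ (1 / 6 : ℝ) := by
    rw [← Real.rpow_natCast, ← Real.rpow_natCast, ← Real.rpow_mul (by positivity)]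
    norm_num
  have e2 : (2 * (k : ℝ)) ^ 5 = (((2 * (k : ℝ)) ^ 30) : ℝ) ^ (1 / 6 : ℝ) := by
    rw [← Real.rpow_natCast, ← Real.rpow_natCast, ← Real.rpow_mul (by positivity)]
    norm_num
  constructor
  · rw [e1]
    exact Real.rpow_le_rpow (by positivity) h1 (by norm_num)
  · calc (s : ℝ) ^ (1 / 6 : ℝ) ≤ (((2 * (k : ℝ)) ^ 30) : ℝ) ^ (1 / 6 : ℝ) :=
          Real.rpow_le_rpow (by positivity) h2 (by norm_num)
      _ = (2 * (k : ℝ)) ^ 5 := e2.symm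
      _ = 32 * (k : ℝ) ^ 5 := by ring

lemma log_bound (s k p : ℕ) (hk : (2 : ℝ) ^ 86 ≤ k) (h2 : (s : ℝ) ≤ (2 * (k : ℝ)) ^ 30)
    (hp : (k : ℝ) ^ 6 ≤ p) (hs : 1 ≤ s) : Real.log s ≤ 6 * Real.log p := by
  have hk0 : (0 : ℝ) < k := lt_of_lt_of_le (by positivity) hk
  have h4 : Real.log s ≤ 30 * (Real.log 2 + Real.log k) := by
    have h5 := Real.log_le_log (by exact_mod_cast hs) h2
    rw [Real.log_pow, Real.log_mul (by norm_num) hk0.ne'] at h5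
    exact_mod_cast h5
  have h6 : 6 * Real.log k ≤ Real.log p := by
    have h8 := Real.log_le_log (by positivity) hp
    rw [Real.log_pow] at h8
    exact_mod_cast h8
  have h9 : 86 * Real.log 2 ≤ Real.log k := by
    have h11 := Real.log_le_log (by positivity) hk
    rw [Real.log_pow] at h11
    exact_mod_cast h11
  have h12 : 0 < Real.log 2 := Real.log_pos (by norm_num)
  linarith

lemma succ_le_sq' {h : ℝ} (h2 : 2 ≤ h) : h + 1 ≤ h ^ 2 := by nlinarith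

/-- The lower bound in terms of `X`. -/
theorem bound_X : ∃ C : ℕ, 1 ≤ C ∧ ∀ s : ℕ, C ≤ s →
    ∃ (n : ℕ) (δ : Fin n → ℕ), 2 * n + ∑ v, δ v = 2 * s ∧
      ∀ (S g F : ℕ) (X : ℝ), 1 ≤ S → s ≤ 2 ^ g → C * X ≤ 1 → S / (s : ℝ) ^ (1 / 6 : ℝ) ≤ X →
        g * F / (s * Real.log s) ≤ X →
      ∀ (Q A Γ : Type) [Fintype Q] [Fintype A] [Fintype Γ] (M : Machine n Q A Γ) (T : ℕ),
        Real.log (Fintype.card Q) ≤ S → Real.log (Fintype.card A) ≤ g →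
        Real.log (Fintype.card Γ) ≤ g →
        (∀ G : SimpleGraph (Fin n), (∀ v, (adjList G v).length = δ v) →
          (M.Accepts T F G ↔ G.CliqueFree 3)) →
        1 / 4368 * s * Real.log (1 / X) ≤ T := by
  obtain ⟨K, hK⟩ : ∃ K : ℕ, K = 2 ^ 86 := ⟨_, rfl⟩
  have hK7 : 7 ≤ K := by rw [hK]; norm_num
  have hKR : (2 : ℝ) ^ 86 ≤ K := by rw [hK]; norm_num
  clear hK
  have hK1 : 1 ≤ K := by omega
  have hK1R : (1 : ℝ) ≤ K := by exact_mod_cast hK1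
  obtain ⟨C, hC⟩ : ∃ C : ℕ, C = K ^ 30 := ⟨_, rfl⟩
  have hCR : (C : ℝ) = (K : ℝ) ^ 30 := by rw [hC]; push_cast; ring
  have hC1 : 1 ≤ C := by rw [hC]; exact Nat.one_le_pow _ _ hK1
  clear hC
  have hC22 : (2 : ℝ) ^ 22 * 2 ^ 200 ≤ C := by
    rw [hCR]
    calc (2 : ℝ) ^ 22 * 2 ^ 200 ≤ (2 ^ 86) ^ 3 := by norm_num
      _ ≤ (K : ℝ) ^ 3 := pow_le_pow_left₀ (by positivity) hKR 3
      _ ≤ (K : ℝ) ^ 30 := pow_le_pow_right₀ hK1R (by norm_num)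
  refine ⟨C, hC1, ?_⟩
  intro s hs
  have hsC : (K : ℝ) ^ 30 ≤ s := by rw [← hCR]; exact_mod_cast hs
  obtain ⟨k, p, t, hKk, hk2, hk3, hp, hp1, ht0, ht1, ht2, ht3⟩ := exists_params K s hK7 hsC
  have hk : (2 : ℝ) ^ 86 ≤ k := hKR.trans (by exact_mod_cast hKk)
  clear hKk hCR hKR hsC
  have : Fact p.Prime := ⟨hp⟩
  have hkR0 : (0 : ℝ) < k := lt_of_lt_of_le (by positivity) hk
  have hk0 : 0 < k := by exact_mod_cast hkR0
  have hkR : (1 : ℝ) ≤ k := by exact_mod_cast hk0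
  have hs1 : 1 ≤ s := hC1.trans hs
  have hsR : (1 : ℝ) ≤ s := by exact_mod_cast hs1
  have hs2 : (1 : ℝ) < s := by
    have h1 : (2 : ℝ) ^ 86 ≤ s := by
      refine hk.trans (le_trans ?_ hk2)
      exact le_self_pow₀ hkR (by norm_num)
    refine lt_of_lt_of_le ?_ h1
    norm_num
  have hlogs : 0 < Real.log s := Real.log_pos hs2
  obtain ⟨hρ1, hρ2⟩ := root_bounds s k hk0 hk2 hk3
  obtain ⟨ρ, hρ⟩ : ∃ ρ : ℝ, ρ = (s : ℝ) ^ (1 / 6 : ℝ) := ⟨_, rfl⟩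
  rw [← hρ] at hρ1 hρ2
  have hρ0 : 0 < ρ := by
    rw [hρ]
    exact Real.rpow_pos_of_pos (by linarith) _
  have hp1R : (k : ℝ) ^ 6 ≤ p := by exact_mod_cast hp1.le
  have hlp := log_bound s k p hk hk3 hp1R hs1
  clear hk3 hk2
  obtain ⟨n, δ, hn, hmain⟩ := bound_params t (k ^ 5) p ht0 (Nat.pow_pos hk0) ht1 s ht2
  refine ⟨n, δ, hn, ?_⟩
  intro S g F X hS hg hCX hXS hXF Q A Γ _ _ _ M T hQ hA hG hM
  rw [← hρ] at hXS
  have hSR : (1 : ℝ) ≤ S := by exact_mod_cast hS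
  have hX0 : 0 < X := lt_of_lt_of_le (by positivity) hXS
  have hXS' : (S : ℝ) ≤ X * ρ := by rwa [div_le_iff₀ hρ0] at hXS
  have hXF' : (g : ℝ) * F ≤ X * (s * Real.log s) := by
    rwa [div_le_iff₀ (by positivity)] at hXF
  -- the number Y
  obtain ⟨Y, hY⟩ : ∃ Y : ℝ, Y = 1 / (2 ^ 22 * X) := ⟨_, rfl⟩
  have hYX : Y * X = 1 / 2 ^ 22 := by rw [hY]; field_simp
  have hY200 : (2 : ℝ) ^ 200 ≤ Y := by
    rw [hY, le_div_iff₀ (by positivity)]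
    calc (2 : ℝ) ^ 200 * (2 ^ 22 * X) = (2 ^ 22 * 2 ^ 200) * X := by ring
      _ ≤ C * X := mul_le_mul_of_nonneg_right hC22 hX0.le
      _ ≤ 1 := hCX
  have hY0 : 0 < Y := lt_of_lt_of_le (by positivity) hY200
  obtain ⟨x, hx⟩ : ∃ x : ℕ, x = ⌊Y⌋₊ := ⟨_, rfl⟩
  have hxY : (x : ℝ) ≤ Y := by rw [hx]; exact Nat.floor_le hY0.le
  have hYx : Y < x + 1 := by rw [hx]; exact Nat.lt_floor_add_one Y
  have hx1 : 1 ≤ x := by
    rw [hx]
    apply Nat.le_floor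
    refine le_trans ?_ hY200
    norm_num
  obtain ⟨h, hh1, hh2, hh3⟩ := exists_root 160 x (by norm_num) hx1
  have hhR : (1 : ℝ) ≤ h := by exact_mod_cast hh1
  have hh2' : 2 ≤ h := by
    by_contra hcon
    have h1 : h = 1 := by omega
    rw [h1] at hh3
    have h2 : (((1 : ℕ) : ℝ) + 1) ^ 160 < 2 ^ 200 := by norm_num
    linarith
  have hh160 : (h : ℝ) ^ 160 ≤ Y := hh2.trans hxY
  have hYh : Y ≤ ((h : ℝ) + 1) ^ 160 := hYx.le.trans hh3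
  clear hh2 hh3
  have hhX : (h : ℝ) ^ 160 * X ≤ 1 / 2 ^ 22 := by
    rw [← hYX]
    exact mul_le_mul_of_nonneg_right hh160 hX0.le
  -- h ^ 32 ≤ k
  have hhk5 : (h : ℝ) ^ 160 ≤ (k : ℝ) ^ 5 := by
    have h1 : (h : ℝ) ^ 160 * 1 ≤ (h : ℝ) ^ 160 * (X * ρ) :=
      mul_le_mul_of_nonneg_left (hSR.trans hXS') (by positivity)
    calc (h : ℝ) ^ 160 = (h : ℝ) ^ 160 * 1 := (mul_one _).symm
      _ ≤ (h : ℝ) ^ 160 * (X * ρ) := h1
      _ = ((h : ℝ) ^ 160 * X) * ρ := by ring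
      _ ≤ (1 / 2 ^ 22) * ρ := mul_le_mul_of_nonneg_right hhX hρ0.le
      _ ≤ (1 / 2 ^ 22) * (32 * (k : ℝ) ^ 5) := mul_le_mul_of_nonneg_left hρ2 (by positivity)
      _ ≤ (k : ℝ) ^ 5 := by
          have : (0 : ℝ) ≤ (k : ℝ) ^ 5 := by positivity
          linarith
  have hh32 : (h : ℝ) ^ 32 ≤ k := by
    have h1 : ((h : ℝ) ^ 32) ^ 5 ≤ (k : ℝ) ^ 5 := by
      rw [← pow_mul]
      exact hhk5
    exact (pow_le_pow_iff_left₀ (by positivity) hkR0.le (by norm_num)).1 h1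
  clear hhk5
  -- the conditions
  have c1 : 2 ^ 256 * h ^ 80 ≤ p := by
    have h1 : (h : ℝ) ^ 80 ≤ (k : ℝ) ^ 3 := by
      calc (h : ℝ) ^ 80 ≤ (h : ℝ) ^ 96 := pow_le_pow_right₀ hhR (by norm_num)
        _ = ((h : ℝ) ^ 32) ^ 3 := by rw [← pow_mul]
        _ ≤ (k : ℝ) ^ 3 := pow_le_pow_left₀ (by positivity) hh32 3
    have h2 : (2 : ℝ) ^ 256 ≤ (k : ℝ) ^ 3 := by
      calc (2 : ℝ) ^ 256 ≤ (2 ^ 86) ^ 3 := by norm_num
        _ ≤ (k : ℝ) ^ 3 := pow_le_pow_left₀ (by positivity) hk 3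
    have h3 : (2 : ℝ) ^ 256 * (h : ℝ) ^ 80 ≤ p := by
      calc (2 : ℝ) ^ 256 * (h : ℝ) ^ 80 ≤ (k : ℝ) ^ 3 * (k : ℝ) ^ 3 :=
            mul_le_mul h2 h1 (by positivity) (by positivity)
        _ = (k : ℝ) ^ 6 := by ring
        _ ≤ p := hp1R
    exact_mod_cast h3
  have c2' : (2 : ℝ) ^ 13 * (h : ℝ) ^ 2 ≤ k := by
    have h1 : ((2 : ℝ) ^ 13 * (h : ℝ) ^ 2) ^ 2 ≤ (k : ℝ) ^ 2 := by
      calc ((2 : ℝ) ^ 13 * (h : ℝ) ^ 2) ^ 2 = 2 ^ 26 * (h : ℝ) ^ 4 := by ring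
        _ ≤ (k : ℝ) * k := by
            apply mul_le_mul _ _ (by positivity) hkR0.le
            · exact le_trans (by norm_num) hk
            · exact (pow_le_pow_right₀ hhR (by norm_num)).trans hh32
        _ = (k : ℝ) ^ 2 := by ring
    exact (pow_le_pow_iff_left₀ (by positivity) hkR0.le (by norm_num)).1 h1
  have c2 : 2 ^ 13 * h ^ 2 * k ^ 5 ≤ p := by
    have h3 : (2 : ℝ) ^ 13 * (h : ℝ) ^ 2 * (k : ℝ) ^ 5 ≤ p := by
      calc (2 : ℝ) ^ 13 * (h : ℝ) ^ 2 * (k : ℝ) ^ 5 ≤ (k : ℝ) * (k : ℝ) ^ 5 :=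
            mul_le_mul_of_nonneg_right c2' (by positivity)
        _ = (k : ℝ) ^ 6 := by ring
        _ ≤ p := hp1R
    exact_mod_cast h3
  have c3 : 2 ^ 17 * h ^ 5 * S ≤ k ^ 5 := by
    have h1 : (2 : ℝ) ^ 17 * (h : ℝ) ^ 5 * S ≤ (k : ℝ) ^ 5 := by
      have h2 : (h : ℝ) ^ 5 ≤ (h : ℝ) ^ 160 := pow_le_pow_right₀ hhR (by norm_num)
      calc (2 : ℝ) ^ 17 * (h : ℝ) ^ 5 * S ≤ 2 ^ 17 * (h : ℝ) ^ 160 * (X * ρ) := by gcongr
        _ = 2 ^ 17 * ((h : ℝ) ^ 160 * X) * ρ := by ring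
        _ ≤ 2 ^ 17 * (1 / 2 ^ 22) * (32 * (k : ℝ) ^ 5) := by gcongr
        _ = (k : ℝ) ^ 5 := by ring
    exact_mod_cast h1
  have c4 : t * k ^ 5 * p ^ 2 ≤ 2 ^ g := by
    refine le_trans ?_ hg
    omega
  have hsN : (s : ℝ) ≤ 12 * ((t : ℝ) * (k : ℝ) ^ 5 * (p : ℝ) ^ 2) := by exact_mod_cast ht3
  have c5 : 2 ^ 14 * (h : ℝ) ^ 2 * (g * F) ≤
      ((t : ℝ) * ((k ^ 5 : ℕ) : ℝ) * (p : ℝ) ^ 2) * Real.log p := by
    have h2 : (h : ℝ) ^ 2 ≤ (h : ℝ) ^ 160 := pow_le_pow_right₀ hhR (by norm_num)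
    have hslog : 0 < s * Real.log s := by positivity
    push_cast
    calc 2 ^ 14 * (h : ℝ) ^ 2 * (g * F) ≤ 2 ^ 14 * (h : ℝ) ^ 160 * (X * (s * Real.log s)) := by
          gcongr
      _ = 2 ^ 14 * ((h : ℝ) ^ 160 * X) * (s * Real.log s) := by ring
      _ ≤ 2 ^ 14 * (1 / 2 ^ 22) * (s * Real.log s) := by gcongr
      _ ≤ (s * Real.log s) / 72 := by
          rw [div_eq_mul_one_div (s * Real.log s) 72, mul_comm (s * Real.log s)]
          apply mul_le_mul_of_nonneg_right _ hslog.le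
          norm_num
      _ ≤ (12 * ((t : ℝ) * (k : ℝ) ^ 5 * (p : ℝ) ^ 2) * (6 * Real.log p)) / 72 := by
          gcongr
      _ = _ := by ring
  have hg1 : 1 ≤ g := by
    by_contra hcon
    have h1 : g = 0 := by omega
    rw [h1] at hg
    have h2 : (s : ℝ) ≤ 1 := by exact_mod_cast hg
    linarith
  have hfin := hmain h S g F hh1 hS hg1 c1 c2 c3 c4 c5 Q A Γ M T hQ hA hG hM
  refine le_trans ?_ hfin.le
  -- the logarithm
  have hlX : Real.log (1 / X) ≤ 364 * Real.log h := by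
    have h1 : 1 / X = 2 ^ 22 * Y := by rw [hY]; field_simp
    have h2 : 1 / X ≤ (h : ℝ) ^ 364 := by
      have h4 : (2 : ℝ) ^ 22 ≤ ((h : ℝ) + 1) ^ 22 := by
        apply pow_le_pow_left₀ (by norm_num)
        linarith
      have h5 : (h : ℝ) + 1 ≤ (h : ℝ) ^ 2 := succ_le_sq' (by exact_mod_cast hh2')
      rw [h1]
      calc (2 : ℝ) ^ 22 * Y ≤ ((h : ℝ) + 1) ^ 22 * ((h : ℝ) + 1) ^ 160 :=
            mul_le_mul h4 hYh hY0.le (by positivity)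
        _ = ((h : ℝ) + 1) ^ 182 := by rw [← pow_add]
        _ ≤ ((h : ℝ) ^ 2) ^ 182 := pow_le_pow_left₀ (by positivity) h5 _
        _ = (h : ℝ) ^ 364 := by rw [← pow_mul]
    have h6 := Real.log_le_log (by positivity) h2
    rw [Real.log_pow] at h6
    exact_mod_cast h6
  have hlb : Real.log h ≤ Real.logb 2 h := by
    have h20 : 0 < Real.log 2 := Real.log_pos (by norm_num)
    have h21 : Real.log 2 ≤ 1 := by
      have := Real.log_two_lt_d9; linarith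
    rw [Real.logb, le_div_iff₀ h20]
    exact mul_le_of_le_one_right (Real.log_nonneg hhR) h21
  have hlh0 : 0 ≤ Real.log h := Real.log_nonneg hhR
  push_cast
  calc 1 / 4368 * (s : ℝ) * Real.log (1 / X) ≤ 1 / 4368 * (s : ℝ) * (364 * Real.log h) := by
        gcongr
    _ = (s : ℝ) / 12 * Real.log h := by ring
    _ ≤ (12 * ((t : ℝ) * (k : ℝ) ^ 5 * (p : ℝ) ^ 2)) / 12 * Real.logb 2 h := by gcongr
    _ = _ := by ring

end Pool.Agent.ACC
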