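import Mathlib
import Pool.Agent.ACC.Final

/-!
# Cheap registers as a part of the state
-/

namespace Pool.Agent.ACC

open Finset Pool.Agent.TS

section Sim

variable {n : ℕ} {Q A Γ : Type} (P : A → Prop) [DecidablePred P]

/-- The whole memory. -/
def cont (ν : {a : A // P a} → Γ) (c : A → Γ) (a : A) : Γ :=
  if h : P a then ν ⟨a, h⟩ else c a

open Classical in
/-- The near memory after a write. -/
noncomputable def nearW (ν : {a : A // P a} → Γ) : Option (A × Γ) → {a : A // P a} → Γ
  | none => ν
  | some (a, v) => fun b => if b.1 = a then v else ν b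

/-- The far part of a write. -/
def farW : Option (A × Γ) → Option (A × Γ)
  | none => none
  | some (a, v) => if P a then none else some (a, v)

/-- The content read, from the near or the far memory. -/
def valOf (o : Option A) (ν : {a : A // P a} → Γ) (γ : Option Γ) : Option Γ :=
  match o with
  | none => none
  | some a => if h : P a then some (ν ⟨a, h⟩) else γ

/-- The far part of a read. -/
def farR : Option A → Option A
  | none => none
  | some a => if P a then none else some a

lemma valOf_eq (o : Option A) (ν : {a : A // P a} → Γ) (c : A → Γ) :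
    valOf P o ν ((farR P o).map c) = o.map (cont P ν c) := by
  rcases o with _ | a
  · rfl
  · by_cases h : P a
    · simp [valOf, cont, h]
    · simp [valOf, farR, cont, h]

lemma cont_write (ν : {a : A // P a} → Γ) (c : A → Γ) (w : Option (A × Γ)) :
    cont P (nearW P ν w) (write c (farW P w)) = write (cont P ν c) w := by
  funext b
  rcases w with _ | ⟨a, v⟩
  · by_cases h : P b <;> simp [cont, nearW, farW, write, h]
  · by_cases ha : P a
    · by_cases h : P b
      · by_cases hb : b = a
        · subst hb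
          simp [cont, nearW, write, h]
        · simp [cont, nearW, write, h, hb]
      · have hb : b ≠ a := by rintro rfl; exact h ha
        simp [cont, farW, write, h, hb, ha]
    · by_cases h : P b
      · have hb : b ≠ a := by rintro rfl; exact ha h
        simp [cont, nearW, write, h, hb]
      · simp [cont, farW, write, h, ha]

/-- The machine with the near registers in its states. -/
noncomputable def sim (M : Machine n Q A Γ) : Machine n (Q × ({a : A // P a} → Γ)) A Γ where
  start := {x | x.1 ∈ M.start ∧ x.2 = fun a => M.init a.1}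
  init := M.init
  rd i x := farR P (M.rd i x.1)
  ask i x γ := M.ask i x.1 (valOf P (M.rd i x.1) x.2 γ)
  next i x γ an := {y | ∃ w, (y.1.1, w) ∈ M.next i x.1 (valOf P (M.rd i x.1) x.2 γ) an ∧
    y.1.2 = nearW P x.2 w ∧ y.2 = farW P w}
  acc := {x | x.1 ∈ M.acc}

lemma sim_sound (M : Machine n Q A Γ) (G : SimpleGraph (Fin n)) (t : ℕ)
    (x : ℕ → Q × ({a : A // P a} → Γ)) (c' : ℕ → A → Γ) (y : ℕ → Option (A × Γ))
    (h : (sim P M).IsComputation G t x c' y) (hacc : x t ∈ (sim P M).acc) :
    ∃ (t : ℕ) (q : ℕ → Q) (c : ℕ → A → Γ) (w : ℕ → Option (A × Γ)),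
      M.IsComputation G t q c w ∧ q t ∈ M.acc := by
  obtain ⟨h1, h2, h3⟩ := h
  have h4 : ∀ i, i < t → ∃ w, ((x (i + 1)).1, w) ∈ M.next i (x i).1
      (valOf P (M.rd i (x i).1) (x i).2 ((farR P (M.rd i (x i).1)).map (c' i)))
      (answer G (M.ask i (x i).1
        (valOf P (M.rd i (x i).1) (x i).2 ((farR P (M.rd i (x i).1)).map (c' i))))) ∧
      (x (i + 1)).2 = nearW P (x i).2 w ∧ y i = farW P w := fun i hi => (h3 i hi).1
  choose! w hw using h4
  refine ⟨t, fun i => (x i).1, fun i => cont P (x i).2 (c' i), w, ⟨h1.1, ?_, ?_⟩, hacc⟩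
  · funext a
    by_cases ha : P a
    · simp only [cont, dif_pos ha, h1.2]
    · simp only [cont, dif_neg ha, h2]
      rfl
  · intro i hi
    have h5 := hw i hi
    rw [valOf_eq] at h5
    refine ⟨h5.1, ?_⟩
    simp only
    rw [h5.2.1, (h3 i hi).2, h5.2.2, cont_write]

lemma sim_complete (M : Machine n Q A Γ) (G : SimpleGraph (Fin n)) (t : ℕ)
    (q : ℕ → Q) (c : ℕ → A → Γ) (w : ℕ → Option (A × Γ))
    (h : M.IsComputation G t q c w) (hacc : q t ∈ M.acc) :
    (sim P M).IsComputation G t (fun i => (q i, fun b => c i b.1))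
      (fun i a => if P a then M.init a else c i a) (fun i => farW P (w i)) ∧
    (q t, fun b : {a : A // P a} => c t b.1) ∈ (sim P M).acc := by
  obtain ⟨h1, h2, h3⟩ := h
  have hc : ∀ i, cont P (fun b : {a : A // P a} => c i b.1)
      (fun a => if P a then M.init a else c i a) = c i := by
    intro i
    funext a
    by_cases ha : P a <;> simp [cont, ha]
  refine ⟨⟨⟨h1, ?_⟩, ?_, ?_⟩, hacc⟩
  · funext b
    simp only [h2]
  · funext a
    simp only [h2, ite_self]
    rfl
  · intro i hi
    have h5 := h3 i hi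
    refine ⟨⟨w i, ?_, ?_, rfl⟩, ?_⟩
    · simp only [sim]
      rw [valOf_eq, hc]
      exact h5.1
    · funext b
      simp only [h5.2]
      rcases h6 : w i with _ | ⟨a, v⟩
      · simp [nearW, write]
      · simp [nearW, write]
    · funext b
      simp only [h5.2]
      rcases h6 : w i with _ | ⟨a, v⟩
      · simp [farW, write]
      · by_cases ha : P a
        · by_cases hb : P b
          · simp [farW, write, ha, hb]
          · have hba : b ≠ a := by rintro rfl; exact hb ha
            simp [farW, write, ha, hb, hba]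
        · by_cases hb : P b
          · have hba : b ≠ a := by rintro rfl; exact ha hb
            simp [farW, write, ha, hb, hba]
          · simp [farW, write, ha, hb]

lemma read_ge {f : A → ℝ} {φ : ℝ} (hfm : ∀ a, ¬ P a → φ ≤ f a) (o : Option A)
    (h : farR P o ≠ none) : φ ≤ o.elim 0 f := by
  rcases o with _ | a
  · exact absurd rfl h
  · by_cases ha : P a
    · exact absurd (by simp [farR, ha]) h
    · exact hfm a ha

omit P in
lemma read_nonneg {f : A → ℝ} (hf : ∀ a, 0 ≤ f a) (o : Option A) : 0 ≤ o.elim 0 f := by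
  rcases o with _ | a
  · exact le_rfl
  · exact hf a

lemma write_ge {f : A → ℝ} {φ : ℝ} (hfm : ∀ a, ¬ P a → φ ≤ f a)
    (o : Option (A × Γ)) (h : farW P o ≠ none) : φ ≤ o.elim 0 fun x => f x.1 := by
  rcases o with _ | ⟨a, v⟩
  · exact absurd rfl h
  · by_cases ha : P a
    · exact absurd (by simp [farW, ha]) h
    · exact hfm a ha

omit P in
lemma write_nonneg {f : A → ℝ} (hf : ∀ a, 0 ≤ f a) (o : Option (A × Γ)) :
    0 ≤ o.elim 0 fun x => f x.1 := by
  rcases o with _ | ⟨a, v⟩
  · exact le_rfl
  · exact hf a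

omit P in
lemma cost_nonneg (M : Machine n Q A Γ) (f : A → ℝ) (hf : ∀ a, 0 ≤ f a) (t : ℕ) (q : ℕ → Q)
    (w : ℕ → Option (A × Γ)) : (t : ℝ) ≤ M.cost f t q w := by
  unfold Machine.cost
  have : 0 ≤ min (∑ i ∈ Finset.range t, (M.rd i (q i)).elim 0 f)
      (∑ i ∈ Finset.range t, (w i).elim 0 fun x => f x.1) :=
    le_min (Finset.sum_nonneg fun i _ => read_nonneg hf _)
      (Finset.sum_nonneg fun i _ => write_nonneg hf _)
  linarith

/-- Few far accesses. -/
lemma sim_far (M : Machine n Q A Γ) (f : A → ℝ) (hf : ∀ a, 0 ≤ f a) (φ : ℝ)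
    (hφ : 0 < φ) (hfm : ∀ a, ¬ P a → φ ≤ f a) (t : ℕ) (q : ℕ → Q) (c : ℕ → A → Γ)
    (w : ℕ → Option (A × Γ)) (T : ℝ) (hT : M.cost f t q w ≤ T) :
    (sim P M).reads t (fun i => (q i, fun b => c i b.1)) ≤ ⌊T / φ⌋₊ ∨
      writes t (fun i => farW P (w i)) ≤ ⌊T / φ⌋₊ := by
  classical
  have hmin : min (∑ i ∈ Finset.range t, (M.rd i (q i)).elim 0 f)
      (∑ i ∈ Finset.range t, (w i).elim 0 fun x => f x.1) ≤ T := by
    unfold Machine.cost at hT
    have : (0 : ℝ) ≤ t := Nat.cast_nonneg _
    linarith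
  rcases min_le_iff.1 hmin with h | h
  · left
    apply Nat.le_floor
    rw [le_div_iff₀ hφ]
    refine le_trans ?_ h
    unfold Machine.reads
    rw [Finset.card_filter]
    push_cast
    rw [Finset.sum_mul]
    refine Finset.sum_le_sum fun i _ => ?_
    split_ifs with h7
    · rw [one_mul]
      exact read_ge P hfm _ h7
    · rw [zero_mul]
      exact read_nonneg hf _
  · right
    apply Nat.le_floor
    rw [le_div_iff₀ hφ]
    refine le_trans ?_ h
    unfold writes
    rw [Finset.card_filter]
    push_cast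
    rw [Finset.sum_mul]
    refine Finset.sum_le_sum fun i _ => ?_
    split_ifs with h7
    · rw [one_mul]
      exact write_ge P hfm _ h7
    · rw [zero_mul]
      exact write_nonneg hf _

end Sim

lemma exists_large (K : ℝ) : ∃ s₀ : ℕ, ∀ s : ℕ, s₀ ≤ s →
    K * Real.log s ≤ (s : ℝ) ^ (1 / 84 : ℝ) := by
  have h1 := (isLittleO_log_rpow_atTop (show (0 : ℝ) < 1 / 84 by norm_num)).bound
    (show (0 : ℝ) < 1 / (|K| + 1) by positivity)
  have h2 := tendsto_natCast_atTop_atTop (R := ℝ) |>.eventually h1
  obtain ⟨s₀, hs₀⟩ := Filter.eventually_atTop.1 h2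
  refine ⟨max s₀ 1, fun s hs => ?_⟩
  have h3 := hs₀ s ((le_max_left _ _).trans hs)
  have h4 : (1 : ℝ) ≤ s := by exact_mod_cast (le_max_right _ _).trans hs
  have h5 : 0 ≤ Real.log s := Real.log_nonneg h4
  have h6 : 0 ≤ (s : ℝ) ^ (1 / 84 : ℝ) := Real.rpow_nonneg (by linarith) _
  rw [Real.norm_of_nonneg h5, Real.norm_of_nonneg h6] at h3
  have h7 : (|K| + 1) * Real.log s ≤ (s : ℝ) ^ (1 / 84 : ℝ) := by
    calc (|K| + 1) * Real.log s ≤ (|K| + 1) * (1 / (|K| + 1) * (s : ℝ) ^ (1 / 84 : ℝ)) :=
          mul_le_mul_of_nonneg_left h3 (by positivity)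
      _ = (s : ℝ) ^ (1 / 84 : ℝ) := by field_simp
  have h8 : K * Real.log s ≤ (|K| + 1) * Real.log s := by
    apply mul_le_mul_of_nonneg_right _ h5
    have := le_abs_self K
    linarith
  exact h8.trans h7

end Pool.Agent.ACC
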