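import Mathlib
import Pool.Agent.ACC.Ram

/-!
# The main theorem
-/

namespace Pool.Agent.ACC

open Finset Pool.Agent.TS

lemma log_card_pow {c s κ : ℕ} (hs : 1 ≤ s) (h : c ≤ s ^ κ) :
    Real.log c ≤ (κ + 1) * Real.log s := by
  have hs1 : (1 : ℝ) ≤ s := by exact_mod_cast hs
  have hl : 0 ≤ Real.log s := Real.log_nonneg hs1
  rcases Nat.eq_zero_or_pos c with h0 | h0
  · rw [h0]
    simp only [Nat.cast_zero, Real.log_zero]
    positivity
  · have h1 : (c : ℝ) ≤ (s : ℝ) ^ κ := by exact_mod_cast h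
    have h2 := Real.log_le_log (by exact_mod_cast h0) h1
    rw [Real.log_pow] at h2
    linarith

/-- The theorem on prices for one size. -/
theorem price_aux (κ C s : ℕ) (hC : 1 ≤ C) (hs3 : 1 ≤ Real.log s)
    (hlarge : 4 * ((κ : ℝ) + 1) * C * Real.log s ≤ (s : ℝ) ^ (1 / 84 : ℝ))
    (n : ℕ) (δ : Fin n → ℕ)
    (hmain : ∀ (S g F : ℕ) (X : ℝ), 1 ≤ S → s ≤ 2 ^ g → C * X ≤ 1 →
        S / (s : ℝ) ^ (1 / 6 : ℝ) ≤ X → g * F / (s * Real.log s) ≤ X →
      ∀ (Q A Γ : Type) [Fintype Q] [Fintype A] [Fintype Γ] (M : Machine n Q A Γ) (T : ℕ),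
        Real.log (Fintype.card Q) ≤ S → Real.log (Fintype.card A) ≤ g →
        Real.log (Fintype.card Γ) ≤ g →
        (∀ G : SimpleGraph (Fin n), (∀ v, (adjList G v).length = δ v) →
          (M.Accepts T F G ↔ G.CliqueFree 3)) →
        1 / 4368 * s * Real.log (1 / X) ≤ T)
    (Q A Γ : Type) [Fintype Q] [Fintype A] [Fintype Γ] (M : Machine n Q A Γ) (f : A → ℝ)
    (φ T : ℝ) (hQ : Fintype.card Q ≤ s ^ κ) (hN : Fintype.card A ≤ s ^ κ)
    (hG : Fintype.card Γ ≤ s ^ κ) (hf : ∀ a, 0 ≤ f a) (hφ0 : 0 < φ)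
    (P : A → Prop) [DecidablePred P] (hfm : ∀ a, ¬ P a → φ ≤ f a)
    (hm1 : (Fintype.card {a : A // P a} : ℝ) ≤ (s : ℝ) ^ (1 / 7 : ℝ))
    (hcomp : ∀ G : SimpleGraph (Fin n), (∀ v, (adjList G v).length = δ v) → G.CliqueFree 3 →
      ∃ t q c w, M.IsComputation G t q c w ∧ q t ∈ M.acc ∧ M.cost f t q w ≤ T)
    (hsound : ∀ G : SimpleGraph (Fin n), (∀ v, (adjList G v).length = δ v) →
      (∃ t q c w, M.IsComputation G t q c w ∧ q t ∈ M.acc) → G.CliqueFree 3)
    (c : ℝ) (hc0 : 0 < c) (hc1 : c ≤ 1 / 4368 / 84) (hc2 : 6 * ((κ : ℝ) + 1) * C * c ≤ 1) :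
    c * s * min (Real.log s) (Real.log φ) ≤ T := by
  classical
  obtain ⟨K1, hK1⟩ : ∃ K1 : ℝ, K1 = (κ : ℝ) + 1 := ⟨_, rfl⟩
  have hK11 : 1 ≤ K1 := by
    rw [hK1]
    have : (0 : ℝ) ≤ κ := Nat.cast_nonneg _
    linarith
  rw [← hK1] at hlarge hc2
  have hCR : (1 : ℝ) ≤ C := by exact_mod_cast hC
  have hC0 : (0 : ℝ) < C := by linarith
  obtain ⟨l, hl⟩ : ∃ l : ℝ, l = Real.log s := ⟨_, rfl⟩
  rw [← hl] at hs3 hlarge
  have hl0 : 0 < l := by linarith
  have hs1 : 1 ≤ s := by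
    by_contra hcon
    have h1 : s = 0 := by omega
    rw [h1] at hl
    simp only [Nat.cast_zero, Real.log_zero] at hl
    linarith
  have hsR : (1 : ℝ) ≤ s := by exact_mod_cast hs1
  have hsR0 : (0 : ℝ) < s := by linarith
  -- powers of s
  obtain ⟨σ, hσ⟩ : ∃ σ : ℝ, σ = (s : ℝ) ^ (1 / 7 : ℝ) := ⟨_, rfl⟩
  obtain ⟨ρ, hρ⟩ : ∃ ρ : ℝ, ρ = (s : ℝ) ^ (1 / 6 : ℝ) := ⟨_, rfl⟩
  obtain ⟨θ, hθ⟩ : ∃ θ : ℝ, θ = (s : ℝ) ^ (1 / 84 : ℝ) := ⟨_, rfl⟩
  have hσ1 : 1 ≤ σ := by rw [hσ]; exact Real.one_le_rpow hsR (by norm_num)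
  have hρ0 : 0 < ρ := by rw [hρ]; exact Real.rpow_pos_of_pos hsR0 _
  have hθ1 : 1 ≤ θ := by rw [hθ]; exact Real.one_le_rpow hsR (by norm_num)
  have hθ0 : 0 < θ := by linarith
  have hprod : ρ = σ * θ * θ := by
    rw [hρ, hσ, hθ, ← Real.rpow_add hsR0, ← Real.rpow_add hsR0]
    norm_num
  rw [← hθ] at hlarge
  rw [← hσ] at hm1
  have hlogθ : Real.log θ = l / 84 := by
    rw [hθ, Real.log_rpow hsR0, ← hl]; ring
  obtain ⟨S, hS⟩ : ∃ S : ℕ, S = ⌈3 * K1 * σ * l⌉₊ := ⟨_, rfl⟩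
  have hK1σl : 1 ≤ K1 * σ * l := by
    have h1 : 1 ≤ K1 * σ := one_le_mul_of_one_le_of_one_le hK11 hσ1
    exact one_le_mul_of_one_le_of_one_le h1 hs3
  have hSge : 3 * K1 * σ * l ≤ S := by rw [hS]; exact Nat.le_ceil _
  have hSle : (S : ℝ) ≤ 4 * K1 * σ * l := by
    have := Nat.ceil_lt_add_one (show 0 ≤ 3 * K1 * σ * l by positivity)
    rw [← hS] at this
    linarith
  have hS1 : 1 ≤ S := by
    have h1 : (1 : ℝ) ≤ S := by
      refine le_trans ?_ hSge
      linarith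
    exact_mod_cast h1
  -- the word size
  obtain ⟨g, hg⟩ : ∃ g : ℕ, g = ⌈2 * K1 * l⌉₊ := ⟨_, rfl⟩
  have hK1l : 1 ≤ K1 * l := one_le_mul_of_one_le_of_one_le hK11 hs3
  have hgge : 2 * K1 * l ≤ g := by rw [hg]; exact Nat.le_ceil _
  have hgle : (g : ℝ) ≤ 3 * K1 * l := by
    have := Nat.ceil_lt_add_one (show 0 ≤ 2 * K1 * l by positivity)
    rw [← hg] at this
    linarith
  have hl2 : (0.69 : ℝ) ≤ Real.log 2 := by
    have := Real.log_two_gt_d9
    linarith
  have hsg : s ≤ 2 ^ g := by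
    have h1 : (s : ℝ) ≤ 2 ^ g := by
      have h2 : l ≤ g * Real.log 2 := by
        have h3 : K1 * l ≥ l := le_mul_of_one_le_left hl0.le hK11
        have h4 : (g : ℝ) * 0.69 ≤ g * Real.log 2 :=
          mul_le_mul_of_nonneg_left hl2 (Nat.cast_nonneg _)
        have h5 : 2 * (K1 * l) ≤ g := by linarith
        linarith
      calc (s : ℝ) = Real.exp l := by rw [hl, Real.exp_log hsR0]
        _ ≤ Real.exp (g * Real.log 2) := Real.exp_le_exp.2 h2
        _ = 2 ^ g := by rw [Real.exp_nat_mul, Real.exp_log (by norm_num)]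
    exact_mod_cast h1
  -- the sizes
  have hlQ := log_card_pow hs1 hQ
  have hlG := log_card_pow hs1 hG
  have hlN := log_card_pow hs1 hN
  rw [← hK1, ← hl] at hlQ hlG hlN
  have hQ' : Real.log (Fintype.card (Q × ({a : A // P a} → Γ))) ≤ S := by
    rcases Nat.eq_zero_or_pos (Fintype.card (Q × ({a : A // P a} → Γ))) with h0 | h0
    · rw [h0]; simp
    · rw [Fintype.card_prod, Fintype.card_fun] at h0 ⊢
      have hq0 : 0 < Fintype.card Q := Nat.pos_of_mul_pos_right h0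
      have hp0 : 0 < Fintype.card Γ ^ Fintype.card {a : A // P a} := Nat.pos_of_mul_pos_left h0
      push_cast
      rw [Real.log_mul (by exact_mod_cast hq0.ne') (by exact_mod_cast hp0.ne'), Real.log_pow]
      have h2 : 0 ≤ Real.log (Fintype.card Γ) := Real.log_natCast_nonneg _
      have h3 : (Fintype.card {a : A // P a} : ℝ) * Real.log (Fintype.card Γ) ≤ σ * (K1 * l) :=
        mul_le_mul hm1 hlG h2 (by linarith)
      have h4 : K1 * l ≤ σ * (K1 * l) := le_mul_of_one_le_left (by positivity) hσ1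
      calc Real.log (Fintype.card Q) + (Fintype.card {a : A // P a} : ℝ) * Real.log (Fintype.card Γ)
          ≤ K1 * l + σ * (K1 * l) := add_le_add hlQ h3
        _ ≤ σ * (K1 * l) + (2 * σ) * (K1 * l) := by
            have : 0 ≤ σ * (K1 * l) := by positivity
            linarith
        _ = 3 * K1 * σ * l := by ring
        _ ≤ S := hSge
  have hA' : Real.log (Fintype.card A) ≤ g := by linarith
  have hG' : Real.log (Fintype.card Γ) ≤ g := by linarith
  -- near memory small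
  have hnear : (S : ℝ) / ρ ≤ 1 / (C * θ) := by
    rw [div_le_div_iff₀ hρ0 (by positivity)]
    calc (S : ℝ) * (C * θ) ≤ (4 * K1 * σ * l) * (C * θ) :=
          mul_le_mul_of_nonneg_right hSle (by positivity)
      _ = (4 * K1 * C * l) * (σ * θ) := by ring
      _ ≤ θ * (σ * θ) := mul_le_mul_of_nonneg_right hlarge (by positivity)
      _ = 1 * ρ := by rw [hprod]; ring
  -- the core
  have hcore : ∀ (F : ℕ) (Z : ℝ), 1 ≤ Z → Z ≤ θ → g * F / (s * l) ≤ 1 / (C * Z) →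
      (∀ G : SimpleGraph (Fin n), (∀ v, (adjList G v).length = δ v) → G.CliqueFree 3 →
        (sim P M).Accepts ⌊T⌋₊ F G) → 1 / 4368 * s * Real.log Z ≤ ⌊T⌋₊ := by
    intro F Z hZ1 hZθ hF hacc
    have hZ0 : 0 < Z := by linarith
    have h1 := hmain S g F (1 / (C * Z)) hS1 hsg (by
        rw [mul_one_div, div_le_one (by positivity)]
        exact le_mul_of_one_le_right hC0.le hZ1) (by
        rw [← hρ]
        refine hnear.trans ?_
        apply one_div_le_one_div_of_le (by positivity)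
        exact mul_le_mul_of_nonneg_left hZθ hC0.le) (by rw [← hl]; exact hF)
      (Q × ({a : A // P a} → Γ)) A Γ (sim P M) ⌊T⌋₊ hQ' hA' hG' (by
        intro G hGδ
        constructor
        · rintro ⟨t, x, c', y, _, h2, h3, _⟩
          exact hsound G hGδ (sim_sound P M G t x c' y h2 h3)
        · exact hacc G hGδ)
    refine le_trans ?_ h1
    apply mul_le_mul_of_nonneg_left _ (by positivity)
    apply Real.log_le_log hZ0
    rw [one_div_one_div]
    exact le_mul_of_one_le_left hZ0.le hCR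
  -- T is not negative
  have hT0 : 0 ≤ T := by
    by_contra hcon
    push Not at hcon
    have h1 := hcore 0 θ hθ1 le_rfl (by
        simp only [Nat.cast_zero, mul_zero, zero_div]
        positivity) (by
        intro G hGδ hfree
        obtain ⟨t, q, c, w, _, _, h2⟩ := hcomp G hGδ hfree
        have h3 := cost_nonneg M f hf t q w
        have h4 : (0 : ℝ) ≤ t := Nat.cast_nonneg _
        linarith)
    rw [hlogθ, Nat.floor_of_nonpos hcon.le] at h1
    simp only [Nat.cast_zero] at h1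
    have h2 : 0 < 1 / 4368 * (s : ℝ) * (l / 84) := by positivity
    linarith
  rw [← hl]
  by_contra hcon
  push Not at hcon
  obtain ⟨μ, hμ⟩ : ∃ μ : ℝ, μ = min l (Real.log φ) := ⟨_, rfl⟩
  rw [← hμ] at hcon
  have hμ0 : 0 < μ := by
    by_contra h1
    push Not at h1
    have h2 : c * s * μ ≤ 0 := mul_nonpos_of_nonneg_of_nonpos (by positivity) h1
    linarith
  have hμl : μ ≤ l := by rw [hμ]; exact min_le_left _ _
  have hμφ : μ ≤ Real.log φ := by rw [hμ]; exact min_le_right _ _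
  have hlφ0 : 0 < Real.log φ := lt_of_lt_of_le hμ0 hμφ
  have hφ1 : 1 < φ := by
    by_contra h1
    push Not at h1
    have := Real.log_nonpos hφ0.le h1
    linarith
  obtain ⟨ψ, hψ⟩ : ∃ ψ : ℝ, ψ = Real.sqrt φ := ⟨_, rfl⟩
  have hψφ : ψ * ψ = φ := by rw [hψ]; exact Real.mul_self_sqrt hφ0.le
  have hψ1 : 1 ≤ ψ := by
    rw [hψ]
    exact Real.one_le_sqrt.2 hφ1.le
  have hψ0 : 0 < ψ := by linarith
  have hlogψ : Real.log ψ = Real.log φ / 2 := by rw [hψ, Real.log_sqrt hφ0.le]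
  have hlogφψ : Real.log φ ≤ 2 * ψ := by
    rw [hψ]
    exact log_le_two_sqrt φ hφ0
  -- the number of far accesses
  obtain ⟨F, hF⟩ : ∃ F : ℕ, F = ⌊T / φ⌋₊ := ⟨_, rfl⟩
  have hFle : (F : ℝ) ≤ 2 * c * s / ψ := by
    have h1 : (F : ℝ) ≤ T / φ := by rw [hF]; exact Nat.floor_le (by positivity)
    refine h1.trans ?_
    rw [div_le_div_iff₀ hφ0 hψ0]
    have h2 : T ≤ c * s * (2 * ψ) := by
      refine hcon.le.trans ?_
      exact mul_le_mul_of_nonneg_left (hμφ.trans hlogφψ) (by positivity)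
    calc T * ψ ≤ (c * s * (2 * ψ)) * ψ := mul_le_mul_of_nonneg_right h2 hψ0.le
      _ = 2 * c * s * (ψ * ψ) := by ring
      _ = 2 * c * s * φ := by rw [hψφ]
  have hfar : (g : ℝ) * F / (s * l) ≤ 1 / (C * ψ) := by
    rw [div_le_div_iff₀ (by positivity) (by positivity)]
    calc (g : ℝ) * F * (C * ψ) ≤ (3 * K1 * l) * (2 * c * s / ψ) * (C * ψ) := by
          apply mul_le_mul_of_nonneg_right _ (by positivity)
          exact mul_le_mul hgle hFle (Nat.cast_nonneg _) (by positivity)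
      _ = (6 * K1 * C * c) * (s * l) := by field_simp; ring
      _ ≤ 1 * (s * l) := mul_le_mul_of_nonneg_right hc2 (by positivity)
  have hZ := hcore F (min θ ψ) (le_min hθ1 hψ1) (min_le_left _ _) (by
      refine hfar.trans ?_
      apply one_div_le_one_div_of_le
      · exact mul_pos hC0 (lt_min hθ0 hψ0)
      · exact mul_le_mul_of_nonneg_left (min_le_right _ _) hC0.le) (by
      intro G hGδ hfree
      obtain ⟨t, q, c', w, h1, h2, h3⟩ := hcomp G hGδ hfree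
      obtain ⟨h4, h5⟩ := sim_complete P M G t q c' w h1 h2
      refine ⟨t, _, _, _, ?_, h4, h5, ?_⟩
      · exact Nat.le_floor ((cost_nonneg M f hf t q w).trans h3)
      · rw [hF]
        exact sim_far P M f hf φ hφ0 hfm t q c' w T h3)
  have hlogZ : μ / 84 ≤ Real.log (min θ ψ) := by
    rcases le_total θ ψ with h | h
    · rw [min_eq_left h, hlogθ]
      linarith
    · rw [min_eq_right h, hlogψ]
      linarith
  have hfl : ((⌊T⌋₊ : ℕ) : ℝ) ≤ T := Nat.floor_le hT0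
  have h1 : 1 / 4368 * (s : ℝ) * (μ / 84) ≤ T := by
    refine le_trans ?_ (hZ.trans hfl)
    exact mul_le_mul_of_nonneg_left hlogZ (by positivity)
  have h2 : c * s * μ ≤ 1 / 4368 * (s : ℝ) * (μ / 84) := by
    calc c * s * μ = c * (s * μ) := by ring
      _ ≤ (1 / 4368 / 84) * (s * μ) := mul_le_mul_of_nonneg_right hc1 (by positivity)
      _ = _ := by ring
  linarith

/-- The main theorem. -/
theorem main_bound (κ : ℕ) : ∃ c : ℝ, 0 < c ∧ ∃ s₀ : ℕ, ∀ s : ℕ, s₀ ≤ s →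
    ∃ (n : ℕ) (δ : Fin n → ℕ), 2 * n + ∑ v, δ v = 2 * s ∧
      ∀ (Q A Γ : Type) [Fintype Q] [Fintype A] [Fintype Γ] (M : Machine n Q A Γ) (f : A → ℝ)
        (φ T : ℝ), Fintype.card Q ≤ s ^ κ → Fintype.card A ≤ s ^ κ → Fintype.card Γ ≤ s ^ κ →
        (∀ a, 0 ≤ f a) → 0 < φ → (Nat.card {a : A // f a < φ} : ℝ) ≤ (s : ℝ) ^ (1 / 7 : ℝ) →
        M.Recognises f T δ → c * s * min (Real.log s) (Real.log φ) ≤ T := by
  classical
  obtain ⟨C, hC1, hC⟩ := bound_X
  obtain ⟨s₁, hs₁⟩ := exists_large (4 * ((κ : ℝ) + 1) * C)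
  have hCR : (1 : ℝ) ≤ C := by exact_mod_cast hC1
  have hκ : (0 : ℝ) ≤ κ := Nat.cast_nonneg _
  have h6 : (0 : ℝ) < 6 * ((κ : ℝ) + 1) * C := by positivity
  refine ⟨min (1 / 4368 / 84) (1 / (6 * ((κ : ℝ) + 1) * C)), lt_min (by norm_num) (by positivity),
    max (max C s₁) 3, ?_⟩
  intro s hs
  have hsC : C ≤ s := ((le_max_left _ _).trans (le_max_left _ _)).trans hs
  have hss1 : s₁ ≤ s := ((le_max_right _ _).trans (le_max_left _ _)).trans hs
  have hs3 : 3 ≤ s := (le_max_right _ _).trans hs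
  obtain ⟨n, δ, hn, hmain⟩ := hC s hsC
  refine ⟨n, δ, hn, ?_⟩
  intro Q A Γ _ _ _ M f φ T hQ hA hG hf hφ hcard hrec
  have hl : 1 ≤ Real.log s := by
    have h1 : (3 : ℝ) ≤ s := by exact_mod_cast hs3
    rw [Real.le_log_iff_exp_le (by linarith)]
    have := Real.exp_one_lt_d9
    linarith
  refine price_aux κ C s hC1 hl (hs₁ s hss1) n δ hmain Q A Γ M f φ T hQ hA hG hf hφ
    (fun a => f a < φ) (fun a ha => not_lt.1 ha) ?_ ?_ ?_ _ (lt_min (by norm_num) (by positivity))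
    (min_le_left _ _) ?_
  · rw [← Nat.card_eq_fintype_card]
    exact hcard
  · intro G hG hfree
    exact (hrec G hG).1 hfree
  · intro G hG hex
    by_contra hcon
    exact (hrec G hG).2 hcon hex
  · calc 6 * ((κ : ℝ) + 1) * C * min (1 / 4368 / 84) (1 / (6 * ((κ : ℝ) + 1) * C))
        ≤ 6 * ((κ : ℝ) + 1) * C * (1 / (6 * ((κ : ℝ) + 1) * C)) :=
          mul_le_mul_of_nonneg_left (min_le_right _ _) h6.le
      _ = 1 := by field_simp

end Pool.Agent.ACC
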